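import Pool.Agent.H827.LV.Ind
import Mathlib.Topology.Covering.AddCircle

/-!
# Functions whose zero set is a given component of a regular level set
-/

set_option autoImplicit false
set_option linter.unusedSectionVars false

open Set Filter Topology Metric Function
open scoped Manifold ContDiff

noncomputable section

namespace Pool.Agent.H827.LV

open Pool.Agent.Y522 Pool.Agent.X175.SH Pool.Agent.N550.KH Pool.Agent.H829.AZ

/-- a step function -/
theorem exists_step (δ : ℝ) (hδ : 0 < δ) (hδ1 : δ ≤ 1 / 2) : ∃ h : ℝ → ℝ, ContDiff ℝ ∞ h ∧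
    (∀ s, |s| ≤ δ / 2 → h s = s) ∧ (∀ s, δ ≤ |s| → h s = 1 / 2 ∨ h s = -(1 / 2)) ∧
    (∀ s, (∃ n : ℤ, h s = n) → s = 0) := by
  classical
  let b : ContDiffBump (0 : ℝ) := ⟨δ / 2, δ, by positivity, by linarith⟩
  let c : ℝ → ℝ := fun s => if 0 < s then 1 / 2 else -(1 / 2)
  have hc1 : ∀ s, 0 < s → c s = 1 / 2 := fun s hs => if_pos hs
  have hc2 : ∀ s, s < 0 → c s = -(1 / 2) := fun s hs => if_neg (not_lt.2 hs.le)
  have hb1 : ∀ s, |s| ≤ δ / 2 → b s = 1 := fun s hs => b.one_of_mem_closedBall (by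
    rw [mem_closedBall, Real.dist_eq, sub_zero]
    exact hs)
  have hb0 : ∀ s, δ ≤ |s| → b s = 0 := fun s hs => b.zero_of_le_dist (by
    rw [Real.dist_eq, sub_zero]
    exact hs)
  have hbn : ∀ s, 0 ≤ b s := fun s => b.nonneg
  have hbl : ∀ s, b s ≤ 1 := fun s => b.le_one
  let h : ℝ → ℝ := fun s => b s * s + (1 - b s) * c s
  have hh : ∀ s, h s = b s * s + (1 - b s) * c s := fun s => rfl
  have hin : ∀ s, |s| ≤ δ / 2 → h s = s := fun s hs => by
    rw [hh, hb1 s hs]
    ring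
  have hpos : ∀ s, 0 < s → 0 < h s ∧ h s ≤ 1 / 2 := by
    intro s hs
    rw [hh, hc1 s hs]
    by_cases h1 : δ ≤ |s|
    · rw [hb0 s h1]
      norm_num
    · rw [abs_of_pos hs] at h1
      push Not at h1
      have h2 := hbn s
      have h3 := hbl s
      constructor
      · rcases h2.lt_or_eq with h4 | h4
        · have := mul_pos h4 hs
          nlinarith
        · rw [← h4]
          norm_num
      · nlinarith
  have hneg : ∀ s, s < 0 → h s < 0 ∧ -(1 / 2) ≤ h s := by
    intro s hs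
    rw [hh, hc2 s hs]
    by_cases h1 : δ ≤ |s|
    · rw [hb0 s h1]
      norm_num
    · rw [abs_of_neg hs] at h1
      push Not at h1
      have h2 := hbn s
      have h3 := hbl s
      constructor
      · rcases h2.lt_or_eq with h4 | h4
        · have := mul_neg_of_pos_of_neg h4 hs
          nlinarith
        · rw [← h4]
          norm_num
      · nlinarith
  refine ⟨h, ?_, hin, ?_, ?_⟩
  · rw [contDiff_iff_contDiffAt]
    intro s
    by_cases h0 : |s| < δ / 2
    · refine contDiffAt_id.congr_of_eventuallyEq ?_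
      filter_upwards [(isOpen_lt continuous_abs continuous_const).mem_nhds h0] with r hr
      exact hin r (le_of_lt hr)
    · have hb : ContDiffAt ℝ ∞ (fun s => b s) s := b.contDiff.contDiffAt
      have hs0 : s ≠ 0 := by
        rintro rfl
        rw [abs_zero] at h0
        exact h0 (by positivity)
      rcases lt_or_gt_of_ne hs0 with h1 | h1
      · refine ((hb.mul contDiffAt_id).add (((contDiffAt_const (c := (1 : ℝ))).sub hb).mul
          (contDiffAt_const (c := -(1 / 2 : ℝ))))).congr_of_eventuallyEq ?_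
        filter_upwards [gt_mem_nhds h1] with r hr
        rw [hh, hc2 r hr]
        rfl
      · refine ((hb.mul contDiffAt_id).add (((contDiffAt_const (c := (1 : ℝ))).sub hb).mul
          (contDiffAt_const (c := (1 / 2 : ℝ))))).congr_of_eventuallyEq ?_
        filter_upwards [lt_mem_nhds h1] with r hr
        rw [hh, hc1 r hr]
        rfl
  · intro s hs
    rw [hh, hb0 s hs]
    have hs0 : s ≠ 0 := by
      rintro rfl
      rw [abs_zero] at hs
      linarith
    rcases lt_or_gt_of_ne hs0 with h1 | h1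
    · right
      rw [hc2 s h1]
      ring
    · left
      rw [hc1 s h1]
      ring
  · rintro s ⟨n, hn⟩
    by_contra hs0
    rcases lt_or_gt_of_ne hs0 with h1 | h1
    · obtain ⟨h2, h3⟩ := hneg s h1
      rw [hn] at h2 h3
      have h4 : n < 0 := by exact_mod_cast h2
      have h5 : (n : ℝ) ≤ -1 := by exact_mod_cast (show n ≤ -1 by omega)
      linarith
    · obtain ⟨h2, h3⟩ := hpos s h1
      rw [hn] at h2 h3
      have h4 : 0 < n := by exact_mod_cast h2
      have h5 : (1 : ℝ) ≤ n := by exact_mod_cast (show 1 ≤ n by omega)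
      linarith

/-- near a point where two functions differ by an integer, they differ by a constant -/
theorem locally_const {X : Type} [TopologicalSpace X] {D : X → ℝ} {y : X} (hD : ContinuousAt D y)
    (hi : ∀ᶠ z in 𝓝 y, ∃ n : ℤ, D z = n) : ∀ᶠ z in 𝓝 y, D z = D y := by
  obtain ⟨n, hn⟩ := hi.self_of_nhds
  filter_upwards [hi, hD (Metric.ball_mem_nhds _ one_pos)] with z hz hz'
  obtain ⟨k, hk⟩ := hz
  have h1 : |D z - D y| < 1 := by
    rw [← Real.dist_eq]
    exact hz'
  rw [hk, hn] at h1 ⊢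
  have h2 : |k - n| < 1 := by exact_mod_cast h1
  have h3 : k - n = 0 := Int.abs_lt_one_iff.1 h2
  have h4 : k = n := by omega
  rw [h4]

variable {m : ℕ} {X : Type} [TopologicalSpace X] [T2Space X] [ChartedSpace (E (m + 1)) X]
  [IsManifold (𝓡 (m + 1)) ∞ X]

/-- regular points: the level set is locally connected, and both signs occur -/
theorem regular_point {F : X → ℝ} {y : X}
    (hs : ∀ᶠ z in 𝓝 y, ContMDiffAt (𝓡 (m + 1)) 𝓘(ℝ, ℝ) ∞ F z)
    (hd : mfderiv (𝓡 (m + 1)) 𝓘(ℝ, ℝ) F y ≠ 0) :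
    (∀ᶠ z in 𝓝 y, F z = F y → z ∈ connectedComponentIn (F ⁻¹' {F y}) y) ∧
      (∃ᶠ z in 𝓝 y, F z < F y) ∧ ∃ᶠ z in 𝓝 y, F y < F z := by
  obtain ⟨e, heL, he0, hee⟩ := Pool.Agent.Y641.SH.stAdapt m X F y hs hd
  obtain ⟨p, hpL, hp0, hpe, hep⟩ := heL.exists_inverse
  rw [he0] at hpL hp0 hep
  have h1 : ∀ᶠ w in 𝓝 (0 : E (m + 1)), (e (p w)) 0 = F (p w) - F y := by
    have : Tendsto p (𝓝 0) (𝓝 y) := by
      have h := hpL.continuousAt
      rw [ContinuousAt, hp0] at h
      exact h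
    exact this.eventually hee
  obtain ⟨r, hr, hball⟩ := Metric.eventually_nhds_iff_ball.1 (h1.and (hep.and hpL.eventually))
  have hFp : ∀ w ∈ ball (0 : E (m + 1)) r, F (p w) = F y + w 0 := by
    intro w hw
    obtain ⟨a1, a2, -⟩ := hball w hw
    rw [a2] at a1
    linarith
  have htend : Tendsto p (𝓝 0) (𝓝 y) := by
    have h := hpL.continuousAt
    rw [ContinuousAt, hp0] at h
    exact h
  refine ⟨?_, ?_, ?_⟩
  · have hpc : IsPreconnected (p '' (ball (0 : E (m + 1)) r ∩ {w | w 0 = 0})) := by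
      have hconv : Convex ℝ (ball (0 : E (m + 1)) r ∩ {w | w 0 = 0}) := by
        refine (convex_ball _ _).inter ?_
        intro a ha b hb s t _ _ _
        have ha' : a 0 = 0 := ha
        have hb' : b 0 = 0 := hb
        show (s • a + t • b) 0 = 0
        simp [ha', hb']
      refine hconv.isPreconnected.image p fun w hw => ?_
      exact (hball w hw.1).2.2.continuousAt.continuousWithinAt
    have hsub : p '' (ball (0 : E (m + 1)) r ∩ {w | w 0 = 0}) ⊆
        connectedComponentIn (F ⁻¹' {F y}) y := by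
      refine hpc.subset_connectedComponentIn ⟨0, ⟨mem_ball_self hr, by simp⟩, hp0⟩ ?_
      rintro _ ⟨w, ⟨hw, hw0⟩, rfl⟩
      have hw0' : w 0 = 0 := hw0
      show F (p w) = F y
      rw [hFp w hw, hw0', add_zero]
    have hce : Tendsto e (𝓝 y) (𝓝 0) := by
      have h := heL.continuousAt
      rw [ContinuousAt, he0] at h
      exact h
    filter_upwards [hpe, hee, hce (ball_mem_nhds _ hr)] with z h2 h3 h4 h5
    refine hsub ⟨e z, ⟨h4, ?_⟩, h2⟩
    show (e z) 0 = 0
    rw [h3, h5, sub_self]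
  · have h2 : ∃ᶠ w in 𝓝 (0 : E (m + 1)), F (p w) < F y := by
      rw [Metric.nhds_basis_ball.frequently_iff]
      intro ε hε
      have hmin : 0 < min ε r := lt_min hε hr
      refine ⟨(-(min ε r / 2)) • EuclideanSpace.single 0 1, ?_, ?_⟩
      · rw [mem_ball_zero_iff, norm_smul, PiLp.norm_single, norm_one, mul_one, norm_neg,
          Real.norm_of_nonneg (by positivity)]
        have := min_le_left ε r
        linarith
      · rw [hFp]
        · simp
          exact ⟨hε, hr⟩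
        · rw [mem_ball_zero_iff, norm_smul, PiLp.norm_single, norm_one, mul_one, norm_neg,
            Real.norm_of_nonneg (by positivity)]
          have := min_le_right ε r
          linarith
    exact htend.frequently h2
  · have h2 : ∃ᶠ w in 𝓝 (0 : E (m + 1)), F y < F (p w) := by
      rw [Metric.nhds_basis_ball.frequently_iff]
      intro ε hε
      have hmin : 0 < min ε r := lt_min hε hr
      refine ⟨(min ε r / 2) • EuclideanSpace.single 0 1, ?_, ?_⟩
      · rw [mem_ball_zero_iff, norm_smul, PiLp.norm_single, norm_one, mul_one,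
          Real.norm_of_nonneg (by positivity)]
        have := min_le_left ε r
        linarith
      · rw [hFp]
        · simp
          exact ⟨hε, hr⟩
        · rw [mem_ball_zero_iff, norm_smul, PiLp.norm_single, norm_one, mul_one,
            Real.norm_of_nonneg (by positivity)]
          have := min_le_right ε r
          linarith
    exact htend.frequently h2

/-- **The cut functions.** -/
theorem exists_cut [CompactSpace X]
    (hlift : ∀ θ : X → AddCircle (1 : ℝ), Continuous θ →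
      ∃ g : X → ℝ, Continuous g ∧ ∀ x, ((g x : ℝ) : AddCircle (1 : ℝ)) = θ x)
    {F : X → ℝ} (hF : Continuous F) (x₀ : X)
    (hs : ∀ y ∈ connectedComponentIn (F ⁻¹' {F x₀}) x₀,
      ∀ᶠ z in 𝓝 y, ContMDiffAt (𝓡 (m + 1)) 𝓘(ℝ, ℝ) ∞ F z)
    (hd : ∀ y ∈ connectedComponentIn (F ⁻¹' {F x₀}) x₀, mfderiv (𝓡 (m + 1)) 𝓘(ℝ, ℝ) F y ≠ 0)
    (hp : ∀ s₀ ∈ connectedComponentIn (F ⁻¹' {F x₀}) x₀, ∃ f : E m → X, Injective f ∧
      ContMDiff (𝓡 m) (𝓡 (m + 1)) ∞ f ∧ (∀ x, Injective (mfderiv (𝓡 m) (𝓡 (m + 1)) f x)) ∧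
      range f = connectedComponentIn (F ⁻¹' {F x₀}) x₀ \ {s₀}) :
    ∃ φ : X → ℝ, Cut m F φ ∧ {y | φ y = 0} = connectedComponentIn (F ⁻¹' {F x₀}) x₀ := by
  classical
  set t := F x₀ with ht
  set S := connectedComponentIn (F ⁻¹' {t}) x₀ with hSdef
  have hx₀S : x₀ ∈ S := mem_connectedComponentIn (by simp [ht])
  have hSF : ∀ y ∈ S, F y = t := fun y hy => connectedComponentIn_subset (F ⁻¹' {t}) x₀ hy
  have hSpc : IsPreconnected S := isPreconnected_connectedComponentIn
  have hScl : IsClosed S := by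
    rw [← closure_subset_iff_isClosed]
    refine hSpc.closure.subset_connectedComponentIn (subset_closure hx₀S) ?_
    exact closure_minimal (fun y hy => hSF y hy) (isClosed_singleton.preimage hF)
  have hSeq : ∀ y ∈ S, connectedComponentIn (F ⁻¹' {F y}) y = S := by
    intro y hy
    rw [hSF y hy]
    exact (connectedComponentIn_eq hy).symm
  -- a neighbourhood
  set V₀ : Set X := interior {z | (F z = t → z ∈ S) ∧ ContMDiffAt (𝓡 (m + 1)) 𝓘(ℝ, ℝ) ∞ F z}
    with hV₀
  have hSV₀ : S ⊆ V₀ := by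
    intro y hy
    rw [hV₀, mem_interior_iff_mem_nhds]
    have h1 := (regular_point (hs y hy) (hd y hy)).1
    rw [hSeq y hy, hSF y hy] at h1
    exact h1.and (hs y hy)
  obtain ⟨V, hVo, hSV, hVV₀⟩ := normal_exists_closure_subset hScl isOpen_interior hSV₀
  have hV₀p : ∀ z ∈ closure V, (F z = t → z ∈ S) ∧ ContMDiffAt (𝓡 (m + 1)) 𝓘(ℝ, ℝ) ∞ F z := by
    intro z hz
    have h1 : z ∈ {z | (F z = t → z ∈ S) ∧ ContMDiffAt (𝓡 (m + 1)) 𝓘(ℝ, ℝ) ∞ F z} :=
      interior_subset (hVV₀ hz)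
    exact h1
  obtain ⟨δ, hδ, hδ1, hδV⟩ : ∃ δ : ℝ, 0 < δ ∧ δ ≤ 1 / 2 ∧ ∀ z ∈ closure V \ V, δ < |F z - t| := by
    have h1 : IsCompact (F '' (closure V \ V)) :=
      (isClosed_closure.sdiff hVo).isCompact.image hF
    have h2 : t ∉ F '' (closure V \ V) := by
      rintro ⟨z, hz, hzt⟩
      exact hz.2 (hSV ((hV₀p z hz.1).1 hzt))
    obtain ⟨ε, hε, hball⟩ := Metric.isOpen_iff.1 h1.isClosed.isOpen_compl t h2
    refine ⟨min (ε / 2) (1 / 2), by positivity, min_le_right _ _, fun z hz => ?_⟩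
    by_contra hcon
    push Not at hcon
    have h3 : F z ∈ ball t ε := by
      rw [mem_ball, Real.dist_eq]
      have := min_le_left (ε / 2) (1 / 2 : ℝ)
      linarith
    exact hball h3 ⟨z, hz, rfl⟩
  obtain ⟨h, hh, hh1, hh2, hh3⟩ := exists_step δ hδ hδ1
  have hh0 : h 0 = 0 := hh1 0 (by rw [abs_zero]; positivity)
  -- the map to the circle
  obtain ⟨θ, hθ⟩ : ∃ θ : X → AddCircle (1 : ℝ), θ = fun y =>
      if y ∈ V then ((h (F y - t) : ℝ) : AddCircle (1 : ℝ)) else ((1 / 2 : ℝ) : AddCircle (1 : ℝ)) :=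
    ⟨_, rfl⟩
  have hθV : ∀ y ∈ V, θ y = ((h (F y - t) : ℝ) : AddCircle (1 : ℝ)) := fun y hy => by
    rw [hθ]
    exact if_pos hy
  have hθn : ∀ y, y ∉ V → θ y = ((1 / 2 : ℝ) : AddCircle (1 : ℝ)) := fun y hy => by
    rw [hθ]
    exact if_neg hy
  have hhalf : ((-(1 / 2) : ℝ) : AddCircle (1 : ℝ)) = ((1 / 2 : ℝ) : AddCircle (1 : ℝ)) := by
    rw [← sub_eq_zero, ← AddCircle.coe_sub, AddCircle.coe_eq_zero_iff]
    exact ⟨-1, by norm_num⟩
  have hθn' : ∀ y, y ∉ V → ∀ᶠ z in 𝓝 y, θ z = ((1 / 2 : ℝ) : AddCircle (1 : ℝ)) := by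
    intro y hy
    by_cases hyc : y ∈ closure V
    · have h1 := hδV y ⟨hyc, hy⟩
      have h2 : Continuous fun z => |F z - t| := (hF.sub continuous_const).abs
      filter_upwards [(isOpen_lt continuous_const h2).mem_nhds h1] with z hz
      by_cases hzV : z ∈ V
      · rw [hθV z hzV]
        rcases hh2 (F z - t) (le_of_lt hz) with h3 | h3
        · rw [h3]
        · rw [h3, hhalf]
      · exact hθn z hzV
    · filter_upwards [isClosed_closure.isOpen_compl.mem_nhds hyc] with z hz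
      exact hθn z fun h => hz (subset_closure h)
  have hhF : Continuous fun y => h (F y - t) := hh.continuous.comp (hF.sub continuous_const)
  have hθc : Continuous θ := by
    rw [continuous_iff_continuousAt]
    intro y
    by_cases hy : y ∈ V
    · have h1 : ContinuousAt (fun y => ((h (F y - t) : ℝ) : AddCircle (1 : ℝ))) y :=
        ((AddCircle.continuous_mk' (1 : ℝ)).comp hhF).continuousAt
      refine h1.congr ?_
      filter_upwards [hVo.mem_nhds hy] with z hz
      exact (hθV z hz).symm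
    · refine (continuousAt_const (y := ((1 / 2 : ℝ) : AddCircle (1 : ℝ)))).congr ?_
      filter_upwards [hθn' y hy] with z hz
      exact hz.symm
  obtain ⟨g, hg, hgθ⟩ := hlift θ hθc
  have hcoe : ∀ a b : ℝ, ((a : ℝ) : AddCircle (1 : ℝ)) = ((b : ℝ) : AddCircle (1 : ℝ)) →
      ∃ n : ℤ, a - b = n := by
    intro a b hab
    rw [← sub_eq_zero, ← AddCircle.coe_sub, AddCircle.coe_eq_zero_iff] at hab
    obtain ⟨n, hn⟩ := hab
    exact ⟨n, by rw [← hn]; simp⟩
  have hgS : ∀ y ∈ S, ∃ n : ℤ, g y = n := by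
    intro y hy
    have h1 := hgθ y
    rw [hθV y (hSV hy), hSF y hy, sub_self, hh0] at h1
    obtain ⟨n, hn⟩ := hcoe _ _ h1
    exact ⟨n, by rw [← hn, sub_zero]⟩
  obtain ⟨k, hk⟩ := hgS x₀ hx₀S
  have hgk : ∀ y ∈ S, g y = k := by
    intro y hy
    obtain ⟨n, hn⟩ := hgS y hy
    by_contra hcon
    have hnk : n ≠ k := by
      rintro rfl
      exact hcon hn
    rcases lt_or_gt_of_ne hnk with h1 | h1
    · have h2 : (n : ℝ) + 1 ≤ k := by exact_mod_cast h1
      obtain ⟨z, hz, hz'⟩ := hSpc.intermediate_value hy hx₀S hg.continuousOn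
        (show (n : ℝ) + 1 / 2 ∈ Icc (g y) (g x₀) from ⟨by rw [hn]; linarith, by rw [hk]; linarith⟩)
      obtain ⟨l, hl⟩ := hgS z hz
      rw [hl] at hz'
      have h3 : (2 * l : ℝ) = 2 * n + 1 := by linarith
      have h4 : 2 * l = 2 * n + 1 := by exact_mod_cast h3
      omega
    · have h2 : (k : ℝ) + 1 ≤ n := by exact_mod_cast h1
      obtain ⟨z, hz, hz'⟩ := hSpc.intermediate_value hx₀S hy hg.continuousOn
        (show (k : ℝ) + 1 / 2 ∈ Icc (g x₀) (g y) from ⟨by rw [hk]; linarith, by rw [hn]; linarith⟩)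
      obtain ⟨l, hl⟩ := hgS z hz
      rw [hl] at hz'
      have h3 : (2 * l : ℝ) = 2 * k + 1 := by linarith
      have h4 : 2 * l = 2 * k + 1 := by exact_mod_cast h3
      omega
  obtain ⟨φ, hφ⟩ : ∃ φ : X → ℝ, φ = fun y => g y - k := ⟨_, rfl⟩
  have hφa : ∀ y, φ y = g y - k := fun y => by rw [hφ]
  have hφc : Continuous φ := by
    rw [hφ]
    exact hg.sub continuous_const
  have hφV : ∀ y ∈ V, ∃ n : ℤ, φ y - h (F y - t) = n := by
    intro y hy
    obtain ⟨n, hn⟩ := hcoe _ _ ((hgθ y).trans (hθV y hy))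
    exact ⟨n - k, by rw [hφa]; push_cast; rw [← hn]; ring⟩
  have hzero : {y | φ y = 0} = S := by
    ext y
    constructor
    · intro hy
      have hy' : φ y = 0 := hy
      by_cases hyV : y ∈ V
      · obtain ⟨n, hn⟩ := hφV y hyV
        rw [hy'] at hn
        have h1 := hh3 (F y - t) ⟨-n, by push_cast; linarith⟩
        exact (hV₀p y (subset_closure hyV)).1 (by linarith)
      · exfalso
        obtain ⟨n, hn⟩ := hcoe _ _ ((hgθ y).trans (hθn y hyV))
        rw [hφa] at hy'
        have h1 : (2 * (k : ℝ)) = 2 * n + 1 := by linarith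
        have h2 : 2 * k = 2 * n + 1 := by exact_mod_cast h1
        omega
    · intro hy
      show φ y = 0
      rw [hφa, hgk y hy, sub_self]
  have hloc : ∀ y ∈ V, ∀ᶠ z in 𝓝 y, φ z = h (F z - t) + (φ y - h (F y - t)) := by
    intro y hy
    have h1 : ContinuousAt (fun z => φ z - h (F z - t)) y := (hφc.sub hhF).continuousAt
    filter_upwards [locally_const h1 (by
      filter_upwards [hVo.mem_nhds hy] with z hz
      exact hφV z hz)] with z hz
    linarith
  have hlocS : ∀ y ∈ S, ∀ᶠ z in 𝓝 y, φ z = F z - t := by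
    intro y hy
    have h0 : φ y = 0 := by
      have : y ∈ {y | φ y = 0} := hzero ▸ hy
      exact this
    have h2 : Continuous fun z => |F z - t| := (hF.sub continuous_const).abs
    filter_upwards [hloc y (hSV hy), (isOpen_lt h2 continuous_const).mem_nhds
      (show |F y - t| < δ / 2 by rw [hSF y hy, sub_self, abs_zero]; positivity)] with z hz hz'
    have hz'' : |F z - t| < δ / 2 := hz'
    rw [hz, hh1 _ hz''.le, h0, hSF y hy, sub_self, hh0]
    ring
  have hφs : ContMDiff (𝓡 (m + 1)) 𝓘(ℝ, ℝ) ∞ φ := by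
    intro y
    by_cases hy : y ∈ V
    · have h1 : ContMDiffAt (𝓡 (m + 1)) 𝓘(ℝ, ℝ) ∞ F y := (hV₀p y (subset_closure hy)).2
      have h2 : ContDiff ℝ ∞ fun r : ℝ => h (r - t) + (φ y - h (F y - t)) :=
        (hh.comp (contDiff_id.sub contDiff_const)).add contDiff_const
      refine (h2.contMDiff.contMDiffAt.comp y h1).congr_of_eventuallyEq ?_
      exact hloc y hy
    · have h1 : ContinuousAt (fun z => g z - 1 / 2) y := (hg.sub continuous_const).continuousAt
      have h2 := locally_const h1 (by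
        filter_upwards [hθn' y hy] with z hz
        exact hcoe _ _ ((hgθ z).trans hz))
      refine (contMDiffAt_const (c := φ y)).congr_of_eventuallyEq ?_
      filter_upwards [h2] with z hz
      rw [hφa, hφa]
      linarith
  have hSmem : ∀ x, φ x = 0 → x ∈ S := fun x hx => hzero ▸ hx
  have hderiv : ∀ x ∈ S, mfderiv (𝓡 (m + 1)) 𝓘(ℝ, ℝ) φ x ≠ 0 := by
    intro x hx
    have h1 : mfderiv (𝓡 (m + 1)) 𝓘(ℝ, ℝ) φ x =
        mfderiv (𝓡 (m + 1)) 𝓘(ℝ, ℝ) (fun y => F y - t) x :=
      Filter.EventuallyEq.mfderiv_eq (hlocS x hx)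
    have h3 : HasMFDerivAt (𝓡 (m + 1)) 𝓘(ℝ, ℝ) (fun y => F y - t) x
        (mfderiv (𝓡 (m + 1)) 𝓘(ℝ, ℝ) F x) := by
      have h4 : HasMFDerivAt 𝓘(ℝ, ℝ) 𝓘(ℝ, ℝ) (fun r : ℝ => r - t) (F x)
          (ContinuousLinearMap.id ℝ ℝ) :=
        (((hasFDerivAt_id (F x)).sub_const t)).hasMFDerivAt
      exact h4.comp x (((hs x hx).self_of_nhds.mdifferentiableAt (by simp)).hasMFDerivAt)
    rw [h1, h3.mfderiv]
    exact hd x hx
  obtain ⟨-, hlt, hgt⟩ := regular_point (hs x₀ hx₀S) (hd x₀ hx₀S)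
  refine ⟨φ, ⟨⟨hφs, ⟨x₀, ?_⟩, ?_, ?_, ?_, ?_⟩, ?_⟩, hzero⟩
  · have : x₀ ∈ {y | φ y = 0} := hzero ▸ hx₀S
    exact this
  · show IsPreconnected {y | φ y = 0}
    rw [hzero]
    exact hSpc
  · obtain ⟨z, hz1, hz2⟩ := (hlt.and_eventually (hlocS x₀ hx₀S)).exists
    exact ⟨z, by rw [hz2]; linarith⟩
  · obtain ⟨z, hz1, hz2⟩ := (hgt.and_eventually (hlocS x₀ hx₀S)).exists
    exact ⟨z, by rw [hz2]; linarith⟩
  · intro s₀ hs₀
    obtain ⟨f, f1, f2, f3, f4⟩ := hp s₀ (hSmem s₀ hs₀)
    refine ⟨f, f1, f2, f3, fun x => hderiv _ ?_, ?_⟩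
    · have : f x ∈ range f := mem_range_self x
      rw [f4] at this
      exact this.1
    · rw [f4, ← hzero]
      rfl
  · intro x hx
    have := hlocS x (hSmem x hx)
    rw [← hSF x (hSmem x hx)] at this
    exact this

/-- maps of simply connected manifolds to the circle lift to the line -/
theorem lift_of_simplyConnected {n : ℕ} {X : Type} [TopologicalSpace X] [ChartedSpace (E n) X]
    [SimplyConnectedSpace X] (θ : X → AddCircle (1 : ℝ)) (hθ : Continuous θ) :
    ∃ g : X → ℝ, Continuous g ∧ ∀ x, ((g x : ℝ) : AddCircle (1 : ℝ)) = θ x := by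
  have : LocallyPathConnectedSpace X := ChartedSpace.locallyPathConnectedSpace (E n) X
  obtain ⟨x₀⟩ : Nonempty X := inferInstance
  obtain ⟨e₀, he₀⟩ := QuotientAddGroup.mk_surjective (θ x₀)
  obtain ⟨g, ⟨-, hg⟩, -⟩ := (AddCircle.isCoveringMap_coe (1 : ℝ)).existsUnique_continuousMap_lifts
    ⟨θ, hθ⟩ x₀ e₀ he₀
  exact ⟨g, g.continuous, fun x => congrFun hg x⟩

end Pool.Agent.H827.LV
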