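import Pool.Agent.H827.LV.Lift

/-!
# Functions all of whose regular level sets consist of spheres
-/

set_option autoImplicit false
set_option linter.unusedSectionVars false

open Set Filter Topology Metric Function MeasureTheory
open scoped Manifold ContDiff

noncomputable section

namespace Pool.Agent.H827.LV

open Pool.Agent.Y522 Pool.Agent.X175.SH Pool.Agent.N550.KH Pool.Agent.H829.AZ

/-- the standard sphere of dimension `m` -/
abbrev Sp (m : ℕ) : Type := sphere (0 : EuclideanSpace ℝ (Fin (m + 1))) 1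

theorem factS (m : ℕ) : Fact (Module.finrank ℝ (EuclideanSpace ℝ (Fin (m + 1))) = m + 1) :=
  ⟨finrank_euclideanSpace_fin⟩

theorem sp_src {m : ℕ} (q : Sp m) : (chartAt (E m) (-q)).source = {q}ᶜ := by
  have := factS m
  show (stereographic' m (-(-q))).source = {q}ᶜ
  rw [stereographic'_source, neg_neg]

theorem sp_tgt {m : ℕ} (q : Sp m) : (chartAt (E m) (-q)).target = univ := by
  have := factS m
  show (stereographic' m (-(-q))).target = univ
  rw [stereographic'_target]

/-- smoothly embedded spheres without a point -/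
theorem par_of_sphere {m : ℕ} {X : Type} [TopologicalSpace X] [ChartedSpace (E (m + 1)) X]
    [IsManifold (𝓡 (m + 1)) ∞ X] (σ : Sp m → X) (hσ : ContMDiff (𝓡 m) (𝓡 (m + 1)) ∞ σ)
    (hi : Injective σ) (hd : ∀ p, Injective (mfderiv (𝓡 m) (𝓡 (m + 1)) σ p)) (s₀ : X)
    (hs₀ : s₀ ∈ range σ) : ∃ f : E m → X, Injective f ∧ ContMDiff (𝓡 m) (𝓡 (m + 1)) ∞ f ∧
      (∀ x, Injective (mfderiv (𝓡 m) (𝓡 (m + 1)) f x)) ∧ range f = range σ \ {s₀} := by
  obtain ⟨q, rfl⟩ := hs₀
  have hL : ∀ z : E m, LD m (chartAt (E m) (-q)).symm z := fun z =>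
    Null.ld_chart_symm (-q) z (by rw [sp_tgt]; exact mem_univ z)
  have hs : ContMDiff (𝓡 m) (𝓡 m) ∞ (chartAt (E m) (-q)).symm := fun z => (hL z).contMDiffAt
  have hmem : ∀ z : E m, (chartAt (E m) (-q)).symm z ≠ q := by
    intro z h
    have h1 : (chartAt (E m) (-q)).symm z ∈ (chartAt (E m) (-q)).source :=
      (chartAt (E m) (-q)).map_target (by rw [sp_tgt]; exact mem_univ z)
    rw [sp_src] at h1
    exact h1 h
  refine ⟨fun z => σ ((chartAt (E m) (-q)).symm z), ?_, hσ.comp hs, ?_, ?_⟩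
  · intro z w h
    exact (chartAt (E m) (-q)).symm.injOn (by
      show z ∈ (chartAt (E m) (-q)).target
      rw [sp_tgt]; exact mem_univ z) (by
      show w ∈ (chartAt (E m) (-q)).target
      rw [sp_tgt]; exact mem_univ w) (hi h)
  · intro z
    have h1 : mfderiv (𝓡 m) (𝓡 (m + 1)) (fun z => σ ((chartAt (E m) (-q)).symm z)) z =
        (mfderiv (𝓡 m) (𝓡 (m + 1)) σ ((chartAt (E m) (-q)).symm z)).comp
          (mfderiv (𝓡 m) (𝓡 m) (chartAt (E m) (-q)).symm z) :=
      mfderiv_comp z (hσ.mdifferentiableAt (by simp)) (hs.mdifferentiableAt (by simp))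
    rw [h1]
    exact (hd _).comp (hL z).mfderiv_injective
  · ext x
    constructor
    · rintro ⟨z, rfl⟩
      exact ⟨mem_range_self _, fun h => hmem z (hi h)⟩
    · rintro ⟨⟨p, rfl⟩, hp⟩
      refine ⟨chartAt (E m) (-q) p, ?_⟩
      show σ ((chartAt (E m) (-q)).symm (chartAt (E m) (-q) p)) = σ p
      rw [(chartAt (E m) (-q)).left_inv]
      rw [sp_src]
      exact fun h => hp (congrArg σ h)

/-- The components of the level set are smoothly embedded spheres, and `F` is regular along it. -/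
def SphLev (m : ℕ) {X : Type} [TopologicalSpace X] [ChartedSpace (E (m + 1)) X] (F : X → ℝ)
    (t : ℝ) : Prop :=
  ∀ x, F x = t → (∀ᶠ z in 𝓝 x, ContMDiffAt (𝓡 (m + 1)) 𝓘(ℝ, ℝ) ∞ F z) ∧
    mfderiv (𝓡 (m + 1)) 𝓘(ℝ, ℝ) F x ≠ 0 ∧
    ∃ σ : Sp m → X, ContMDiff (𝓡 m) (𝓡 (m + 1)) ∞ σ ∧ Injective σ ∧
      (∀ p, Injective (mfderiv (𝓡 m) (𝓡 (m + 1)) σ p)) ∧
      range σ = connectedComponentIn (F ⁻¹' {t}) x

/-- **Theorem.** -/
theorem cell_of_levels {m : ℕ} {X : Type} [TopologicalSpace X] [T2Space X] [CompactSpace X]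
    [ConnectedSpace X] [ChartedSpace (E (m + 1)) X] [IsManifold (𝓡 (m + 1)) ∞ X]
    (hlift : ∀ θ : X → AddCircle (1 : ℝ), Continuous θ →
      ∃ g : X → ℝ, Continuous g ∧ ∀ x, ((g x : ℝ) : AddCircle (1 : ℝ)) = θ x)
    {F : X → ℝ} (hF : Continuous F)
    (hfib : ∀ x, Emb (m + 1) (connectedComponentIn (F ⁻¹' {F x}) x))
    (hd : Dense {t | SphLev m F t}) :
    ∃ c : E (m + 1) → X, Cell (m + 1) c ∧ Emb (m + 1) (range c)ᶜ := by
  refine main hF (fun s x hx => ?_) {t | SphLev m F t} hd fun x hx => ?_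
  · rw [← hx]
    exact hfib x
  · have hx' : SphLev m F (F x) := hx
    have hsub : ∀ y ∈ connectedComponentIn (F ⁻¹' {F x}) x, F y = F x := fun y hy =>
      connectedComponentIn_subset (F ⁻¹' {F x}) x hy
    refine exists_cut hlift hF x (fun y hy => (hx' y (hsub y hy)).1)
      (fun y hy => (hx' y (hsub y hy)).2.1) fun s₀ hs₀ => ?_
    obtain ⟨-, -, σ, h1, h2, h3, h4⟩ := hx' x rfl
    obtain ⟨f, f1, f2, f3, f4⟩ := par_of_sphere σ h1 h2 h3 s₀ (by rw [h4]; exact hs₀)
    exact ⟨f, f1, f2, f3, by rw [f4, h4]⟩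

/-- smooth functions have many regular levels -/
theorem dense_of_smooth {m : ℕ} {X : Type} [TopologicalSpace X] [SecondCountableTopology X]
    [ChartedSpace (E (m + 1)) X] [IsManifold (𝓡 (m + 1)) ∞ X] {F : X → ℝ}
    (hF : ContMDiff (𝓡 (m + 1)) 𝓘(ℝ, ℝ) ∞ F)
    (h : ∀ t, (∀ x, F x = t → mfderiv (𝓡 (m + 1)) 𝓘(ℝ, ℝ) F x ≠ 0) → SphLev m F t) :
    Dense {t | SphLev m F t} := by
  have h1 := sardM F hF
  have h2 : ∀ᵐ t : ℝ, SphLev m F t := by
    refine measure_mono_null ?_ h1
    intro t ht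
    by_contra hcon
    exact ht (h t fun x hx hx' => hcon ⟨x, hx', hx⟩)
  exact Measure.dense_of_ae h2

/-- **The converse.** -/
theorem exists_fn {X : Type} [TopologicalSpace X] [T2Space X] [ChartedSpace (E (3 + 1)) X]
    [IsManifold (𝓡 (3 + 1)) ∞ X] (G : X ≃ₜ S4) (x₀ : X) (hG : ∀ x, x ≠ x₀ → LD 4 G x)
    (hGs : ∀ x, ContMDiffAt (𝓡 4) (𝓡 4) ∞ G x) :
    ∃ F : X → ℝ, ContMDiff (𝓡 (3 + 1)) 𝓘(ℝ, ℝ) ∞ F ∧
      (∀ t, (∀ x, F x = t → mfderiv (𝓡 (3 + 1)) 𝓘(ℝ, ℝ) F x ≠ 0) → SphLev 3 F t ∧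
        IsPreconnected (F ⁻¹' {t})) ∧
      ∀ t, Emb (3 + 1) (F ⁻¹' {t}) := by
  classical
  have hf4 := factS 4
  have hf3 := factS 3
  -- coordinates
  have hv : ‖((G x₀ : S4) : E 5)‖ = 1 := by simp
  have hne0 : ‖(e0 : E 5)‖ = 1 := norm_e0
  obtain ⟨A, hA⟩ : ∃ A : E 5 ≃ₗᵢ[ℝ] E 5, A (G x₀ : S4) = e0 :=
    ⟨_, Submodule.reflection_sub (v := ((G x₀ : S4) : E 5)) (w := e0) (by rw [hv, hne0])⟩
  let L : X → E 5 := fun x => A (G x : S4)
  have hLs : ContMDiff (𝓡 4) 𝓘(ℝ, E 5) ∞ L := by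
    have h1 : ContMDiff (𝓡 4) 𝓘(ℝ, E 5) ∞ (fun y : S4 => (y : E 5)) := contMDiff_coe_sphere
    have h2 : ContMDiff 𝓘(ℝ, E 5) 𝓘(ℝ, E 5) ∞ A := A.toContinuousLinearEquiv.contDiff.contMDiff
    exact h2.comp (h1.comp hGs)
  have hLn : ∀ x, ‖L x‖ = 1 := fun x => by
    show ‖A (G x : S4)‖ = 1
    rw [A.norm_map]
    simp
  have hLi : Injective L := fun x y h => G.injective (Subtype.ext (A.injective h))
  have hpr : ContDiff ℝ ∞ fun z : E 5 => z 0 := by fun_prop
  let F : X → ℝ := fun x => L x 0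
  have hFs : ContMDiff (𝓡 4) 𝓘(ℝ, ℝ) ∞ F := hpr.contMDiff.comp hLs
  have hFle : ∀ x, F x ^ 2 ≤ 1 := by
    intro x
    have h1 := norm_cn_sq (L x 0) (tl (L x))
    rw [cn_tl, hLn] at h1
    have h2 : F x = L x 0 := rfl
    rw [h2]
    have := sq_nonneg ‖tl (L x)‖
    linarith
  have hFx₀ : F x₀ = 1 := by
    show L x₀ 0 = 1
    show (A (G x₀ : S4)) 0 = 1
    rw [hA]
    simp [e0]
  have hF1 : ∀ x, F x = 1 → x = x₀ := by
    intro x hx
    refine hLi ?_
    have h1 := norm_cn_sq (L x 0) (tl (L x))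
    have h2 : L x 0 = 1 := hx
    rw [cn_tl, hLn, h2] at h1
    have h3 : tl (L x) = 0 := by
      rw [← norm_eq_zero]
      have : ‖tl (L x)‖ ^ 2 = 0 := by linarith
      exact pow_eq_zero_iff (two_ne_zero) |>.1 this
    show L x = A (G x₀ : S4)
    rw [hA, ← cn_tl (L x), h2, h3]
    ext i
    refine Fin.cases ?_ (fun i => ?_) i <;> simp [e0]
  refine ⟨F, hFs, ?_, ?_⟩
  · intro t ht
    by_cases hne : ∃ x, F x = t
    · obtain ⟨x₁, hx₁⟩ := hne
      -- the level is not extremal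
      have hreg := regular_point (Eventually.of_forall fun z => (hFs z)) (ht x₁ hx₁)
      have ht2 : t ^ 2 < 1 := by
        obtain ⟨z, hz⟩ := hreg.2.1.exists
        obtain ⟨w, hw⟩ := hreg.2.2.exists
        have h1 := hFle z
        have h2 := hFle w
        rw [hx₁] at hz hw
        have h3 := (sq_le_one_iff_abs_le_one _).1 h1
        have h4 := (sq_le_one_iff_abs_le_one _).1 h2
        rw [abs_le] at h3 h4
        have h5 : |t| < 1 := abs_lt.2 ⟨by linarith, by linarith⟩
        exact (sq_lt_one_iff_abs_lt_one _).2 h5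
      obtain ⟨ρ, hρ0, hρ⟩ : ∃ ρ : ℝ, 0 < ρ ∧ ρ ^ 2 = 1 - t ^ 2 :=
        ⟨Real.sqrt (1 - t ^ 2), Real.sqrt_pos.2 (by linarith), Real.sq_sqrt (by linarith)⟩
      -- the parametrization
      have hwn : ∀ p : Sp 3, ‖cn t (ρ • (p : E 4))‖ = 1 := by
        intro p
        have h1 := norm_cn_sq t (ρ • (p : E 4))
        have h2 : ‖(p : E 4)‖ = 1 := by simp
        rw [norm_smul, h2, Real.norm_of_nonneg hρ0.le, mul_one, hρ] at h1
        have h3 : ‖cn t (ρ • (p : E 4))‖ ^ 2 = 1 ^ 2 := by rw [h1]; ring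
        exact (sq_eq_sq₀ (norm_nonneg _) zero_le_one).1 h3
      have hys : ContMDiff (𝓡 3) 𝓘(ℝ, E 5) ∞ fun p : Sp 3 => A.symm (cn t (ρ • (p : E 4))) := by
        have h1 : ContMDiff (𝓡 3) 𝓘(ℝ, E 4) ∞ (fun y : Sp 3 => (y : E 4)) := contMDiff_coe_sphere
        have h2 : ContDiff ℝ ∞ fun q : E 4 => A.symm (cn t (ρ • q)) := by
          refine A.symm.toContinuousLinearEquiv.contDiff.comp ?_
          have h3 : (fun q : E 4 => cn t (ρ • q)) = fun q => t • e0 + inc (ρ • q) := by
            funext q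
            rw [cn_eq, inc_apply]
          rw [h3]
          exact contDiff_const.add (inc.contDiff.comp (contDiff_id.const_smul ρ))
        exact h2.contMDiff.comp h1
      have hymem : ∀ p : Sp 3, A.symm (cn t (ρ • (p : E 4))) ∈ sphere (0 : E 5) 1 := by
        intro p
        rw [mem_sphere_zero_iff_norm, A.symm.norm_map, hwn]
      have hysm : ContMDiff (𝓡 3) (𝓡 4) ∞
          (Set.codRestrict _ _ hymem : Sp 3 → S4) := hys.codRestrict_sphere hymem
      obtain ⟨y, hy, hyv⟩ : ∃ y : Sp 3 → S4, ContMDiff (𝓡 3) (𝓡 4) ∞ y ∧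
          ∀ p, (y p : E 5) = A.symm (cn t (ρ • (p : E 4))) := ⟨_, hysm, fun p => rfl⟩
      have hLG : ∀ p, L (G.symm (y p)) = cn t (ρ • (p : E 4)) := by
        intro p
        show A (G (G.symm (y p)) : S4) = _
        rw [G.apply_symm_apply, hyv, A.apply_symm_apply]
      have hyne : ∀ p, G.symm (y p) ≠ x₀ := by
        intro p hp
        have h1 : F (G.symm (y p)) = t := by
          show L (G.symm (y p)) 0 = t
          rw [hLG, cn_zero]
        rw [hp, hFx₀] at h1
        rw [← h1] at ht2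
        norm_num at ht2
      have hσ : ContMDiff (𝓡 3) (𝓡 4) ∞ fun p => G.symm (y p) := by
        intro p
        have h1 : LD 4 G.symm (G (G.symm (y p))) := by
          refine LD.inverse (k := G) (U := {x₀}ᶜ) isOpen_compl_singleton (fun x hx => hG x hx)
            (fun x _ => G.symm_apply_apply x) (hyne p)
        rw [G.apply_symm_apply] at h1
        exact ContMDiffAt.comp (g := G.symm) p h1.contMDiffAt hy.contMDiffAt
      have himm : ∀ p, Injective (mfderiv (𝓡 3) (𝓡 4) (fun p => G.symm (y p)) p) := by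
        intro p
        have h1 : mfderiv (𝓡 3) 𝓘(ℝ, E 5) (fun p => L (G.symm (y p))) p =
            (mfderiv (𝓡 4) 𝓘(ℝ, E 5) L (G.symm (y p))).comp
              (mfderiv (𝓡 3) (𝓡 4) (fun p => G.symm (y p)) p) :=
          mfderiv_comp p (hLs.mdifferentiableAt (by simp)) (hσ.mdifferentiableAt (by simp))
        have h2 : (fun p => L (G.symm (y p))) = fun p : Sp 3 => t • e0 + inc (ρ • (p : E 4)) := by
          funext p
          rw [hLG, cn_eq, inc_apply]
        rw [h2] at h1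
        have h3 : HasFDerivAt (fun q : E 4 => t • (e0 : E 5) + inc (ρ • q))
            (inc.comp (ρ • ContinuousLinearMap.id ℝ (E 4))) (p : E 4) := by
          have h4 : HasFDerivAt (fun q : E 4 => ρ • q) (ρ • ContinuousLinearMap.id ℝ (E 4))
              (p : E 4) := (hasFDerivAt_id _).const_smul ρ
          exact ((inc.hasFDerivAt (x := ρ • (p : E 4))).comp (p : E 4) h4).const_add _
        have h5 : mfderiv (𝓡 3) 𝓘(ℝ, E 5) (fun p : Sp 3 => t • (e0 : E 5) + inc (ρ • (p : E 4))) p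
            = (inc.comp (ρ • ContinuousLinearMap.id ℝ (E 4))).comp
              (mfderiv (𝓡 3) 𝓘(ℝ, E 4) (fun y : Sp 3 => (y : E 4)) p) := by
          have h6 := HasMFDerivAt.comp p h3.hasMFDerivAt
            ((contMDiff_coe_sphere (n := 3) (m := (∞ : WithTop ℕ∞)) (E := E 4)).mdifferentiableAt
              (x := p) (by simp)).hasMFDerivAt
          exact h6.mfderiv
        rw [h5] at h1
        have h7 : Injective ((inc.comp (ρ • ContinuousLinearMap.id ℝ (E 4))).comp
              (mfderiv (𝓡 3) 𝓘(ℝ, E 4) (fun y : Sp 3 => (y : E 4)) p)) := by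
          refine Injective.comp (g := (inc.comp (ρ • ContinuousLinearMap.id ℝ (E 4)) :
            E 4 →L[ℝ] E 5)) ?_ (mfderiv_coe_sphere_injective (n := 3) p)
          intro a b hab
          have h8 : cn 0 (ρ • a) = cn 0 (ρ • b) := hab
          have h9 := congrArg tl h8
          rw [tl_cn, tl_cn] at h9
          exact smul_right_injective _ hρ0.ne' h9
        rw [h1] at h7
        exact Injective.of_comp h7
      have hrange : range (fun p => G.symm (y p)) = F ⁻¹' {t} := by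
        ext x
        constructor
        · rintro ⟨p, rfl⟩
          show L (G.symm (y p)) 0 = t
          rw [hLG, cn_zero]
        · intro hx
          have hx' : L x 0 = t := hx
          have h1 := norm_cn_sq (L x 0) (tl (L x))
          rw [cn_tl, hLn, hx'] at h1
          have h2 : ‖ρ⁻¹ • tl (L x)‖ = 1 := by
            rw [norm_smul, Real.norm_of_nonneg (inv_nonneg.2 hρ0.le)]
            have h3 : ‖tl (L x)‖ = ρ := by
              have h4 : ‖tl (L x)‖ ^ 2 = ρ ^ 2 := by rw [hρ]; linarith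
              exact (sq_eq_sq₀ (norm_nonneg _) hρ0.le).1 h4
            rw [h3, inv_mul_cancel₀ hρ0.ne']
          refine ⟨⟨ρ⁻¹ • tl (L x), by rw [mem_sphere_zero_iff_norm]; exact h2⟩, ?_⟩
          refine hLi ?_
          simp only
          rw [hLG]
          simp only
          rw [smul_smul, mul_inv_cancel₀ hρ0.ne', one_smul, ← hx', cn_tl]
      have hcon : IsPreconnected (F ⁻¹' {t}) := by
        have h1 : 1 < Module.rank ℝ (EuclideanSpace ℝ (Fin (3 + 1))) := by
          rw [← Module.finrank_eq_rank, finrank_euclideanSpace_fin]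
          norm_num
        have : ConnectedSpace (Sp 3) :=
          isConnected_iff_connectedSpace.1 (isConnected_sphere h1 0 zero_le_one)
        rw [← hrange]
        exact isPreconnected_range hσ.continuous
      refine ⟨fun x hx => ⟨Eventually.of_forall fun z => hFs z, ht x hx, fun p => G.symm (y p), hσ,
        ?_, himm, ?_⟩, hcon⟩
      · intro p q hpq
        have h1 : L (G.symm (y p)) = L (G.symm (y q)) := congrArg L hpq
        rw [hLG, hLG] at h1
        have h2 := congrArg tl h1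
        rw [tl_cn, tl_cn] at h2
        exact Subtype.ext (smul_right_injective _ hρ0.ne' h2)
      · rw [hrange]
        exact (hcon.connectedComponentIn hx).symm
    · have hempty : F ⁻¹' {t} = ∅ := by
        ext x
        simp only [mem_preimage, mem_singleton_iff, mem_empty_iff_false, iff_false]
        exact fun h => hne ⟨x, h⟩
      refine ⟨fun x hx => absurd ⟨x, hx⟩ hne, ?_⟩
      rw [hempty]
      exact isPreconnected_empty
  · intro t
    by_cases ht : t = 1
    · refine Emb.mono (emb_singleton (n := 3 + 1) x₀) ?_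
      intro x hx
      have hx' : F x = t := hx
      exact hF1 x (hx'.trans ht)
    · obtain ⟨k, h1, h2, -⟩ := of_sphere G x₀ hG x₀
      refine ⟨{x₀}ᶜ, k, isOpen_compl_singleton, ?_, h1, fun x hx => h2 x hx⟩
      rintro x hx rfl
      have hx' : F x = t := hx
      exact ht (hx'.symm.trans hFx₀)

end Pool.Agent.H827.LV
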