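import Pool.Agent.H827.LV.Union
import Pool.Agent.H829.AZ.Sph

/-!
# Gluing along spheres
-/

set_option autoImplicit false
set_option linter.unusedSectionVars false

open Set Filter Topology Metric Function
open scoped Manifold ContDiff

noncomputable section

namespace Pool.Agent.H827.LV

open Pool.Agent.Y522 Pool.Agent.X175.SH Pool.Agent.N550.KH Pool.Agent.H829.AZ

/-- moving points inside an open set -/
theorem move_in {n : ℕ} {N : Type} [TopologicalSpace N] [T2Space N] [ChartedSpace (E n) N]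
    [IsManifold (𝓡 n) ∞ N] {V : Set N} (hV : IsOpen V) {x y : N} (hx : x ∈ V)
    (hy : y ∈ connectedComponentIn V x) :
    ∃ κ : N → N, IsDf n κ ∧ κ x = y ∧ ∀ z, z ∉ V → κ z = z := by
  obtain ⟨δ, hδ, hmove⟩ := exists_move n
  -- the local statement
  have hloc : ∀ y ∈ V, ∃ W ∈ 𝓝 y, W ⊆ V ∧ ∀ y' ∈ W, ∃ κ : N → N, IsDf n κ ∧ κ y' = y ∧
      ∀ z, z ∉ V → κ z = z := by
    intro y hyV
    obtain ⟨c, hc, hc0, hcV⟩ := exists_cell (n := n) y (V := V) (hV.mem_nhds hyV)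
    refine ⟨c '' ball 0 δ, (hc.openMap _ isOpen_ball).mem_nhds ⟨0, mem_ball_self hδ, hc0⟩,
      (image_subset_range _ _).trans hcV, ?_⟩
    rintro _ ⟨a, ha, rfl⟩
    obtain ⟨Φ, h1, h2, h3⟩ := hmove a (mem_ball_zero_iff.1 ha)
    obtain ⟨K, hK, hKc, hKo⟩ := Supp.main n N c hc.inj hc.ld Φ ⟨Φ.bijective, h1⟩ ⟨1, h2⟩
    exact ⟨K, hK, by rw [hKc, h3, hc0], fun z hz => hKo z fun h => hz (hcV h)⟩
  set Q : Set N := {y | y ∈ V ∧ ∃ κ : N → N, IsDf n κ ∧ κ x = y ∧ ∀ z, z ∉ V → κ z = z} with hQ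
  have hopen : IsOpen Q := by
    rw [isOpen_iff_mem_nhds]
    rintro y ⟨hyV, κ, hκ, hκx, hκo⟩
    obtain ⟨W, hW, hWV, hWm⟩ := hloc y hyV
    refine mem_of_superset hW ?_
    intro y' hy'
    obtain ⟨κ', hκ', hy, hκ'o⟩ := hWm y' hy'
    obtain ⟨κ'', h1, h2, h3⟩ := dfInv hκ'
    refine ⟨hWV hy', fun x => κ'' (κ x), IsDf.comp h1 hκ, ?_, fun z hz => ?_⟩
    · show κ'' (κ x) = y'
      rw [hκx, ← hy, h2]
    · show κ'' (κ z) = z
      rw [hκo z hz]
      conv_lhs => rw [← hκ'o z hz]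
      exact h2 z
  have hopen' : IsOpen (V \ Q) := by
    rw [isOpen_iff_mem_nhds]
    rintro y ⟨hyV, hyQ⟩
    obtain ⟨W, hW, hWV, hWm⟩ := hloc y hyV
    refine mem_of_superset hW ?_
    intro y' hy'
    refine ⟨hWV hy', ?_⟩
    rintro ⟨-, κ, hκ, hκx, hκo⟩
    obtain ⟨κ', hκ', hyy, hκ'o⟩ := hWm y' hy'
    refine hyQ ⟨hyV, fun x => κ' (κ x), IsDf.comp hκ' hκ, ?_, fun z hz => ?_⟩
    · show κ' (κ x) = y
      rw [hκx, hyy]
    · show κ' (κ z) = z
      rw [hκo z hz, hκ'o z hz]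
  have hpc : IsPreconnected (connectedComponentIn V x) := isPreconnected_connectedComponentIn
  have hsub : connectedComponentIn V x ⊆ Q := by
    by_contra hcon
    obtain ⟨z, hz, hzQ⟩ := not_subset.1 hcon
    have hVs := connectedComponentIn_subset V x
    obtain ⟨w, -, hw1, hw2⟩ := hpc Q (V \ Q) hopen hopen' (fun w hw => by
      by_cases h : w ∈ Q
      · exact Or.inl h
      · exact Or.inr ⟨hVs hw, h⟩) ⟨x, mem_connectedComponentIn hx, hx, fun x => x, isDf_id, rfl,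
        fun _ _ => rfl⟩ ⟨z, hz, hVs hz, hzQ⟩
    exact hw2.2 hw1
  exact (hsub hy).2

variable {m : ℕ} {X : Type} [TopologicalSpace X] [T2Space X] [ChartedSpace (E (m + 1)) X]
  [IsManifold (𝓡 (m + 1)) ∞ X]

/-- the zero set of `φ` is regular, connected, and without any of its points it is diffeomorphic to
Euclidean space -/
structure SphereZero (m : ℕ) {X : Type} [TopologicalSpace X] [ChartedSpace (E (m + 1)) X]
    (φ : X → ℝ) : Prop where
  smooth : ContMDiff (𝓡 (m + 1)) 𝓘(ℝ, ℝ) ∞ φ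
  nonempty : ∃ x, φ x = 0
  conn : IsPreconnected {x | φ x = 0}
  neg : ∃ x, φ x < 0
  pos : ∃ x, 0 < φ x
  par : ∀ s₀, φ s₀ = 0 → ∃ f : E m → X, Injective f ∧ ContMDiff (𝓡 m) (𝓡 (m + 1)) ∞ f ∧
    (∀ x, Injective (mfderiv (𝓡 m) (𝓡 (m + 1)) f x)) ∧
    (∀ x, mfderiv (𝓡 (m + 1)) 𝓘(ℝ, ℝ) φ (f x) ≠ 0) ∧ range f = {x | φ x = 0 ∧ x ≠ s₀}

/-- compact sets which miss a point of the sphere -/
theorem glue_punct {φ : X → ℝ} (hφ : SphereZero m φ) {V : Set X}
    (hSV : ∀ x, φ x = 0 → x ∈ V)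
    (hneg : ∀ K : Set X, IsCompact K → K ⊆ V → (∀ x ∈ K, φ x ≤ 0) → Emb (m + 1) K)
    (hpos : ∀ K : Set X, IsCompact K → K ⊆ V → (∀ x ∈ K, 0 ≤ φ x) → Emb (m + 1) K)
    {s₀ : X} (hs₀ : φ s₀ = 0) {L : Set X} (hL : IsCompact L) (hLV : L ⊆ V) (hLs : s₀ ∉ L) :
    Emb (m + 1) L := by
  obtain ⟨f, h1, h2, h3, h4, h5⟩ := hφ.par s₀ hs₀
  have hf : ∀ x, φ (f x) = 0 ∧ f x ≠ s₀ := fun x => by
    have : f x ∈ range f := mem_range_self x
    rw [h5] at this
    exact this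
  refine hSum m X (V \ {s₀}) L φ f hφ.smooth hL (fun x hx => ⟨hLV hx, fun h => hLs (h ▸ hx)⟩)
    h1 h2 h3 (fun x => (hf x).1) h4 (fun x => ⟨hSV _ (hf x).1, (hf x).2⟩) ?_ ?_ ?_
  · intro x hx hx0
    rw [h5]
    exact ⟨hx0, fun h => hLs (h ▸ hx)⟩
  · exact fun K hK hKW h => hneg K hK (fun x hx => (hKW hx).1) h
  · exact fun K hK hKW h => hpos K hK (fun x hx => (hKW hx).1) h

/-- the image under a diffeomorphism -/
theorem emb_of_image {κ : X → X} (hκ : IsDf (m + 1) κ) {K : Set X} (h : Emb (m + 1) (κ '' K)) :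
    Emb (m + 1) K := by
  obtain ⟨U, k, hU, hKU, hk, hkl⟩ := h
  have hc : Continuous κ := continuous_iff_continuousAt.2 fun x => (hκ.2 x).continuousAt
  refine ⟨κ ⁻¹' U, fun x => k (κ x), hU.preimage hc, fun x hx => hKU ⟨x, hx, rfl⟩, ?_, ?_⟩
  · intro x hx y hy hxy
    exact hκ.1.1 (hk hx hy hxy)
  · intro x hx
    exact LD.comp_fun (g := k) (f := κ) (hkl _ hx) (hκ.2 x)

/-- **Gluing two parts of a closed set along a sphere.** -/
theorem glue [CompactSpace X] [ConnectedSpace X] {φ : X → ℝ} (hφ : SphereZero m φ) {R : Set X}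
    (hR : IsClosed R) (hSR : ∀ x, φ x = 0 → x ∈ R) (hne : R ≠ univ)
    (hneg : Emb (m + 1) (R ∩ {x | φ x ≤ 0})) (hpos : Emb (m + 1) (R ∩ {x | 0 ≤ φ x})) :
    Emb (m + 1) R := by
  obtain ⟨U₁, k₁, hU₁, hK₁, hi₁, hl₁⟩ := hneg
  obtain ⟨U₂, k₂, hU₂, hK₂, hi₂, hl₂⟩ := hpos
  have hφc : Continuous φ := hφ.smooth.continuous
  set V : Set X := (U₁ ∪ {x | 0 < φ x}) ∩ (U₂ ∪ {x | φ x < 0}) with hV
  have hVo : IsOpen V := (hU₁.union (isOpen_lt continuous_const hφc)).inter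
    (hU₂.union (isOpen_lt hφc continuous_const))
  have hRV : R ⊆ V := by
    intro x hx
    constructor
    · by_cases h : φ x ≤ 0
      · exact Or.inl (hK₁ ⟨hx, h⟩)
      · exact Or.inr (not_le.1 h)
    · by_cases h : 0 ≤ φ x
      · exact Or.inl (hK₂ ⟨hx, h⟩)
      · exact Or.inr (not_le.1 h)
  have hn : ∀ K : Set X, IsCompact K → K ⊆ V → (∀ x ∈ K, φ x ≤ 0) → Emb (m + 1) K := by
    intro K _ hKV hK0
    refine ⟨U₁, k₁, hU₁, fun x hx => ?_, hi₁, hl₁⟩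
    rcases (hKV hx).1 with h | h
    · exact h
    · exact absurd (hK0 x hx) (not_le.2 h)
  have hp : ∀ K : Set X, IsCompact K → K ⊆ V → (∀ x ∈ K, 0 ≤ φ x) → Emb (m + 1) K := by
    intro K _ hKV hK0
    refine ⟨U₂, k₂, hU₂, fun x hx => ?_, hi₂, hl₂⟩
    rcases (hKV hx).2 with h | h
    · exact h
    · exact absurd (hK0 x hx) (not_le.2 h)
  obtain ⟨s₀, hs₀⟩ := hφ.nonempty
  -- a point outside `R` in the same component of `V`
  have hs₀V : s₀ ∈ V := hRV (hSR _ hs₀)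
  obtain ⟨q, hq, hqR⟩ : ∃ q ∈ connectedComponentIn V s₀, q ∉ R := by
    by_contra hcon
    push Not at hcon
    have : LocallyConnectedSpace X := ChartedSpace.locallyConnectedSpace (E (m + 1)) X
    have h1 : IsOpen (connectedComponentIn V s₀) := hVo.connectedComponentIn
    have h2 : IsClosed (connectedComponentIn V s₀) := by
      rw [← closure_subset_iff_isClosed]
      have h3 : closure (connectedComponentIn V s₀) ⊆ V :=
        (closure_minimal hcon hR).trans hRV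
      have h4 : IsPreconnected (closure (connectedComponentIn V s₀)) :=
        isPreconnected_connectedComponentIn.closure
      exact h4.subset_connectedComponentIn (subset_closure (mem_connectedComponentIn hs₀V)) h3
    have h5 := IsClopen.eq_univ ⟨h2, h1⟩ ⟨s₀, mem_connectedComponentIn hs₀V⟩
    exact hne (eq_univ_of_univ_subset (h5 ▸ hcon))
  have hqV : q ∈ V := connectedComponentIn_subset V s₀ hq
  have hs₀q : s₀ ∈ connectedComponentIn V q := by
    rw [← connectedComponentIn_eq hq]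
    exact mem_connectedComponentIn hs₀V
  obtain ⟨κ, hκ, hκq, hκo⟩ := move_in (n := m + 1) hVo hqV hs₀q
  have hκV : ∀ x ∈ V, κ x ∈ V := by
    intro x hx
    by_contra hcon
    have h1 := hκ.1.1 (hκo _ hcon)
    rw [h1] at hcon
    exact hcon hx
  have hκc : Continuous κ := continuous_iff_continuousAt.2 fun x => (hκ.2 x).continuousAt
  refine emb_of_image hκ (glue_punct hφ (fun x hx => hRV (hSR x hx)) hn hp hs₀
    (hR.isCompact.image hκc) ?_ ?_)
  · rintro _ ⟨x, hx, rfl⟩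
    exact hκV x (hRV hx)
  · rintro ⟨x, hx, hxs⟩
    rw [← hκq] at hxs
    exact hqR (hκ.1.1 hxs ▸ hx)

/-- **The last step.** -/
theorem cell_of_two [CompactSpace X] {φ : X → ℝ} (hφ : SphereZero m φ)
    (hneg : Emb (m + 1) {x | φ x ≤ 0}) (hpos : Emb (m + 1) {x | 0 ≤ φ x}) :
    ∃ c : E (m + 1) → X, Cell (m + 1) c ∧ Emb (m + 1) (range c)ᶜ := by
  obtain ⟨s₀, hs₀⟩ := hφ.nonempty
  obtain ⟨c, hc, hc0, -⟩ := exists_cell (n := m + 1) s₀ (V := univ) univ_mem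
  refine ⟨c, hc, glue_punct hφ (V := univ) (fun _ _ => mem_univ _)
    (fun K _ _ h => Emb.mono hneg fun x hx => h x hx)
    (fun K _ _ h => Emb.mono hpos fun x hx => h x hx) hs₀
    hc.oe.isOpen_range.isClosed_compl.isCompact (subset_univ _) ?_⟩
  exact fun h => h ⟨0, hc0⟩

end Pool.Agent.H827.LV
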