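import Pool.Agent.H827.LV.Glue

/-!
# Cutting along finitely many spheres
-/

set_option autoImplicit false
set_option linter.unusedSectionVars false

open Set Filter Topology Metric Function
open scoped Manifold ContDiff

noncomputable section

namespace Pool.Agent.H827.LV

open Pool.Agent.Y522 Pool.Agent.X175.SH Pool.Agent.N550.KH Pool.Agent.H829.AZ

variable {m : ℕ} {X : Type} [TopologicalSpace X] [T2Space X] [ChartedSpace (E (m + 1)) X]
  [IsManifold (𝓡 (m + 1)) ∞ X]

/-- the zero set of `φ` is a sphere in a level set of `F` -/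
structure Cut (m : ℕ) {X : Type} [TopologicalSpace X] [ChartedSpace (E (m + 1)) X]
    (F φ : X → ℝ) : Prop extends SphereZero m φ where
  loc : ∀ x, φ x = 0 → ∀ᶠ y in 𝓝 x, φ y = F y - F x

/-- the region on which the functions `φ i`, `i ∈ J`, have the signs `ε i` -/
def reg {ι : Type} (φ : ι → X → ℝ) (J : Finset ι) (ε : ι → ℝ) : Set X :=
  {x | ∀ i ∈ J, 0 ≤ ε i * φ i x}

theorem isClosed_reg {ι : Type} {φ : ι → X → ℝ} (hφ : ∀ i, Continuous (φ i)) (J : Finset ι)
    (ε : ι → ℝ) : IsClosed (reg φ J ε) := by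
  have : reg φ J ε = ⋂ i ∈ J, {x | 0 ≤ ε i * φ i x} := by
    ext x
    simp [reg]
  rw [this]
  exact isClosed_biInter fun i _ => isClosed_le continuous_const (continuous_const.mul (hφ i))

/-- on a sphere in a level set the other functions have constant sign, or they vanish -/
theorem sign_const {F φ ψ : X → ℝ} (hφ : Cut m F φ) (hψ : Cut m F ψ) {ε : ℝ} (hε : ε = 1 ∨ ε = -1)
    {x : X} (hx : φ x = 0) (hxψ : ε * ψ x < 0) : ∀ y, φ y = 0 → ε * ψ y < 0 := by
  have hψc : Continuous ψ := hψ.smooth.continuous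
  intro y hy
  by_contra hcon
  push Not at hcon
  have hε0 : ε ≠ 0 := by rcases hε with h | h <;> rw [h] <;> norm_num
  -- a point where both vanish
  obtain ⟨z, hz, hz0⟩ : ∃ z, φ z = 0 ∧ ψ z = 0 := by
    obtain ⟨z, hz, hz0⟩ := hφ.conn.intermediate_value (f := fun y => ε * ψ y) hx hy
      (continuous_const.mul hψc).continuousOn (show (0 : ℝ) ∈ Icc (ε * ψ x) (ε * ψ y) from
        ⟨hxψ.le, hcon⟩)
    refine ⟨z, hz, ?_⟩
    exact (mul_eq_zero.1 hz0).resolve_left hε0
  have hu : IsOpen (interior {w | φ w = 0 → ψ w = 0}) := isOpen_interior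
  have hv : IsOpen {w | ψ w ≠ 0} := isOpen_ne_fun hψc continuous_const
  have hmem : ∀ w, φ w = 0 → ψ w = 0 → w ∈ interior {w | φ w = 0 → ψ w = 0} := by
    intro w hw hw'
    rw [mem_interior_iff_mem_nhds]
    filter_upwards [hφ.loc w hw, hψ.loc w hw'] with v h1 h2 h3
    rw [h2, ← h1, h3]
  obtain ⟨w, hw1, hw2, hw3⟩ := hφ.conn _ _ hu hv (fun w hw => by
    by_cases h : ψ w = 0
    · exact Or.inl (hmem w hw h)
    · exact Or.inr h) ⟨z, hz, hmem z hz hz0⟩ ⟨x, hx, fun h => by
      rw [h, mul_zero] at hxψ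
      exact lt_irrefl _ hxψ⟩
  exact hw3 (interior_subset hw2 hw1)

/-- **Removing the cuts one by one.** -/
theorem uncut [CompactSpace X] [ConnectedSpace X] {F : X → ℝ} {ι : Type} [Finite ι]
    (φ : ι → X → ℝ) (hφ : ∀ i, Cut m F (φ i)) (hne : Nonempty ι)
    (base : ∀ ε : ι → ℝ, (∀ i, ε i = 1 ∨ ε i = -1) → Emb (m + 1) {x | ∀ i, 0 ≤ ε i * φ i x}) :
    ∃ c : E (m + 1) → X, Cell (m + 1) c ∧ Emb (m + 1) (range c)ᶜ := by
  classical
  have := Fintype.ofFinite ι
  have hc : ∀ i, Continuous (φ i) := fun i => (hφ i).smooth.continuous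
  have hP : ∀ D : Finset ι, (Finset.univ \ D).Nonempty → ∀ ε : ι → ℝ, (∀ i, ε i = 1 ∨ ε i = -1) →
      Emb (m + 1) (reg φ (Finset.univ \ D) ε) := by
    intro D
    induction D using Finset.induction_on with
    | empty =>
      intro _ ε hε
      refine Emb.mono (base ε hε) fun x hx i => hx i (by simp)
    | insert a D ha ih =>
      intro hJ ε hε
      set J := Finset.univ \ insert a D with hJd
      have haJ : a ∉ J := by simp [hJd]
      have hins : Finset.univ \ D = insert a J := by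
        ext i
        simp only [hJd, Finset.mem_sdiff, Finset.mem_univ, true_and, Finset.mem_insert, not_or]
        constructor
        · intro h
          by_cases h' : i = a
          · exact Or.inl h'
          · exact Or.inr ⟨h', h⟩
        · rintro (rfl | h)
          · exact ha
          · exact h.2
      rw [hins] at ih
      have hih := ih ⟨a, Finset.mem_insert_self a J⟩
      have hupd : ∀ s : ℝ, (s = 1 ∨ s = -1) → Emb (m + 1) (reg φ J ε ∩ {x | 0 ≤ s * φ a x}) := by
        intro s hs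
        have h1 := hih (update ε a s) (fun i => by
          by_cases h : i = a
          · subst h
            rw [update_self]
            exact hs
          · rw [update_of_ne h]
            exact hε i)
        refine Emb.mono h1 ?_
        rintro x ⟨hx1, hx2⟩ i hi
        by_cases h : i = a
        · subst h
          rw [update_self]
          exact hx2
        · rw [update_of_ne h]
          exact hx1 i ((Finset.mem_insert.1 hi).resolve_left h)
      have hpos : Emb (m + 1) (reg φ J ε ∩ {x | 0 ≤ φ a x}) := by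
        refine Emb.mono (hupd 1 (Or.inl rfl)) ?_
        rintro x ⟨hx1, hx2⟩
        exact ⟨hx1, by show 0 ≤ 1 * φ a x; rw [one_mul]; exact hx2⟩
      have hneg : Emb (m + 1) (reg φ J ε ∩ {x | φ a x ≤ 0}) := by
        refine Emb.mono (hupd (-1) (Or.inr rfl)) ?_
        rintro x ⟨hx1, hx2⟩
        refine ⟨hx1, ?_⟩
        show 0 ≤ -1 * φ a x
        have : φ a x ≤ 0 := hx2
        linarith
      have hRc : IsClosed (reg φ J ε) := isClosed_reg hc J ε
      by_cases hS : ∀ x, φ a x = 0 → x ∈ reg φ J ε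
      · refine glue (hφ a).toSphereZero hRc hS ?_ hneg hpos
        intro h
        obtain ⟨j, hj⟩ := hJ
        rcases hε j with h1 | h1
        · obtain ⟨x, hx⟩ := (hφ j).neg
          have hx' : x ∈ reg φ J ε := h ▸ mem_univ x
          have := hx' j hj
          rw [h1] at this
          linarith
        · obtain ⟨x, hx⟩ := (hφ j).pos
          have hx' : x ∈ reg φ J ε := h ▸ mem_univ x
          have := hx' j hj
          rw [h1] at this
          linarith
      · push Not at hS
        obtain ⟨x, hx, hxR⟩ := hS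
        have h1 : ∃ i ∈ J, ε i * φ i x < 0 := by
          by_contra hcon
          push Not at hcon
          exact hxR hcon
        obtain ⟨i, hi, hix⟩ := h1
        have h2 := sign_const (hφ a) (hφ i) (hε i) hx hix
        have h3 : reg φ J ε = (reg φ J ε ∩ {x | 0 ≤ φ a x}) ∪ (reg φ J ε ∩ {x | φ a x ≤ 0}) := by
          rw [← inter_union_distrib_left]
          ext y
          constructor
          · intro hy
            exact ⟨hy, le_total (0 : ℝ) (φ a y)⟩
          · exact fun hy => hy.1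
        rw [h3]
        refine emb_union (hRc.inter (isClosed_le continuous_const (hc a))).isCompact
          (hRc.inter (isClosed_le (hc a) continuous_const)).isCompact ?_ hpos hneg
        rw [Set.disjoint_left]
        rintro y ⟨hy1, hy2⟩ ⟨-, hy3⟩
        have h4 := h2 y (le_antisymm hy3 hy2)
        exact absurd (hy1 i hi) (not_le.2 h4)
  obtain ⟨a⟩ := hne
  have hs : Finset.univ \ (Finset.univ.erase a) = {a} := by
    ext i
    simp
  have hPa := hP (Finset.univ.erase a) (by rw [hs]; exact Finset.singleton_nonempty a)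
  rw [hs] at hPa
  refine cell_of_two (hφ a).toSphereZero ?_ ?_
  · refine Emb.mono (hPa (fun _ => -1) fun _ => Or.inr rfl) ?_
    intro x hx i hi
    rw [Finset.mem_singleton.1 hi]
    have : φ a x ≤ 0 := hx
    linarith
  · refine Emb.mono (hPa (fun _ => 1) fun _ => Or.inl rfl) ?_
    intro x hx i hi
    rw [Finset.mem_singleton.1 hi, one_mul]
    exact hx

/-- connected subsets of the regions lie on one side of the levels -/
theorem one_side {F : X → ℝ} (hF : Continuous F) {ι : Type}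
    (φ : ι → X → ℝ) (hφ : ∀ i, Cut m F (φ i)) (hnd : ∀ i j x, φ i x = 0 → φ j x = 0 → i = j)
    {t : ℝ} (ht : ∀ x, F x = t → ∃ i, φ i x = 0) {ε : ι → ℝ} (hε : ∀ i, ε i = 1 ∨ ε i = -1)
    {C : Set X} (hC : IsPreconnected C) (hCR : ∀ x ∈ C, ∀ i, 0 ≤ ε i * φ i x)
    {x : X} (hx : x ∈ C) :
    (F x < t → ∀ y ∈ C, F y ≤ t) ∧ (t < F x → ∀ y ∈ C, t ≤ F y) := by
  set R : Set X := {x | ∀ i, 0 ≤ ε i * φ i x} with hR
  set u : Set X := interior {w | w ∈ R → F w < t ∨ (F w = t ∧ ∃ i, φ i w = 0 ∧ ε i = -1)} with hu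
  set v : Set X := interior {w | w ∈ R → t < F w ∨ (F w = t ∧ ∃ i, φ i w = 0 ∧ ε i = 1)} with hv
  have h1 : ∀ w, F w < t → w ∈ u := by
    intro w hw
    rw [hu, mem_interior_iff_mem_nhds]
    filter_upwards [(isOpen_lt hF continuous_const).mem_nhds hw] with z hz _
    exact Or.inl hz
  have h2 : ∀ w, t < F w → w ∈ v := by
    intro w hw
    rw [hv, mem_interior_iff_mem_nhds]
    filter_upwards [(isOpen_lt continuous_const hF).mem_nhds hw] with z hz _
    exact Or.inl hz
  have h3 : ∀ w, F w = t → w ∈ u ∨ w ∈ v := by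
    intro w hw
    obtain ⟨i, hi⟩ := ht w hw
    have h4 := (hφ i).loc w hi
    rw [hw] at h4
    rcases hε i with he | he
    · right
      rw [hv, mem_interior_iff_mem_nhds]
      filter_upwards [h4] with z hz hzR
      have h5 := hzR i
      rw [he, one_mul, hz] at h5
      rcases h5.lt_or_eq with h6 | h6
      · exact Or.inl (by linarith)
      · exact Or.inr ⟨by linarith, i, by rw [hz]; linarith, he⟩
    · left
      rw [hu, mem_interior_iff_mem_nhds]
      filter_upwards [h4] with z hz hzR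
      have h5 := hzR i
      rw [he, hz] at h5
      rcases h5.lt_or_eq with h6 | h6
      · exact Or.inl (by linarith)
      · exact Or.inr ⟨by linarith, i, by rw [hz]; linarith, he⟩
  have key : ∀ y ∈ C, ∀ z ∈ C, F y < t → t < F z → False := by
    intro y hy z hz hyt hzt
    obtain ⟨w, hw, hwu, hwv⟩ := hC u v isOpen_interior isOpen_interior (fun w _ => by
      rcases lt_trichotomy (F w) t with h | h | h
      · exact Or.inl (h1 w h)
      · exact h3 w h
      · exact Or.inr (h2 w h)) ⟨y, hy, h1 y hyt⟩ ⟨z, hz, h2 z hzt⟩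
    have hwR : w ∈ R := hCR w hw
    have a1 := interior_subset hwu hwR
    have a2 := interior_subset hwv hwR
    rcases a1 with a1 | ⟨a1, i, hi, hi'⟩
    · rcases a2 with a2 | ⟨a2, -⟩
      · linarith
      · linarith
    · rcases a2 with a2 | ⟨-, j, hj, hj'⟩
      · linarith
      · rw [hnd i j w hi hj] at hi'
        rw [hi'] at hj'
        norm_num at hj'
  constructor
  · intro hxt y hy
    by_contra hcon
    exact key x hx y hy hxt (not_le.1 hcon)
  · intro hxt y hy
    by_contra hcon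
    exact key y hy x hx (not_le.1 hcon) hxt

/-- **Theorem.** -/
theorem main [CompactSpace X] [ConnectedSpace X] {F : X → ℝ} (hF : Continuous F)
    (hfib : ∀ s, ∀ x, F x = s → Emb (m + 1) (connectedComponentIn (F ⁻¹' {s}) x)) (T : Set ℝ)
    (hT : Dense T)
    (hcut : ∀ x, F x ∈ T → ∃ φ : X → ℝ, Cut m F φ ∧
      {y | φ y = 0} = connectedComponentIn (F ⁻¹' {F x}) x) :
    ∃ c : E (m + 1) → X, Cell (m + 1) c ∧ Emb (m + 1) (range c)ᶜ := by
  classical
  have hlev : ∀ s, Emb (m + 1) (F ⁻¹' {s}) := fun s =>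
    emb_of_components (isClosed_singleton.preimage hF).isCompact fun x hx => hfib s x hx
  -- thin slabs embed
  have hslab : ∀ s : ℝ, ∃ δ > 0, Emb (m + 1) (F ⁻¹' ball s δ) := by
    intro s
    obtain ⟨U, k, hU, hKU, hk, hkl⟩ := hlev s
    have h1 : IsCompact (F '' Uᶜ) := (hU.isClosed_compl.isCompact).image hF
    have h2 : s ∉ F '' Uᶜ := by
      rintro ⟨x, hx, hxs⟩
      exact hx (hKU hxs)
    obtain ⟨δ, hδ, hball⟩ := Metric.isOpen_iff.1 h1.isClosed.isOpen_compl s h2
    refine ⟨δ, hδ, U, k, hU, ?_, hk, hkl⟩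
    intro x hx
    by_contra hcon
    exact hball hx ⟨x, hcon, rfl⟩
  choose δ hδ hslab using hslab
  have hlo : ∀ s : ℝ, ∃ a ∈ T, s - δ s < a ∧ a < s := fun s =>
    hT.exists_between (by linarith [hδ s])
  have hhi : ∀ s : ℝ, ∃ a ∈ T, s < a ∧ a < s + δ s := fun s =>
    hT.exists_between (by linarith [hδ s])
  choose lo hloT hlo1 hlo2 using hlo
  choose hi hhiT hhi1 hhi2 using hhi
  -- finitely many slabs
  obtain ⟨P, hP⟩ := isCompact_univ.elim_finite_subcover (fun s : ℝ => F ⁻¹' Ioo (lo s) (hi s))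
    (fun s => isOpen_Ioo.preimage hF) (fun x _ => mem_iUnion.2 ⟨F x, hlo2 _, hhi1 _⟩)
  set T₀ : Set ℝ := ⋃ s ∈ P, {lo s, hi s} with hT₀
  have hT₀f : T₀.Finite := P.finite_toSet.biUnion fun s _ => (Set.toFinite _)
  have hT₀T : T₀ ⊆ T := by
    intro t ht
    obtain ⟨s, hs, hs'⟩ := mem_iUnion₂.1 ht
    rcases hs' with rfl | rfl
    · exact hloT s
    · exact hhiT s
  -- the spheres
  have hcut' : ∀ x : X, ∃ φ : X → ℝ, F x ∈ T₀ → Cut m F φ ∧
      {y | φ y = 0} = connectedComponentIn (F ⁻¹' {F x}) x := by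
    intro x
    by_cases hx : F x ∈ T₀
    · obtain ⟨φ, h⟩ := hcut x (hT₀T hx)
      exact ⟨φ, fun _ => h⟩
    · exact ⟨fun _ => 0, fun h => absurd h hx⟩
  choose Φ hΦ using hcut'
  set 𝒮 : Set (Set X) := {S | ∃ x, F x ∈ T₀ ∧ S = connectedComponentIn (F ⁻¹' {F x}) x} with h𝒮
  have h𝒮f : 𝒮.Finite := by
    have hcomp : IsCompact (F ⁻¹' T₀) := (hT₀f.isClosed.preimage hF).isCompact
    have hO : ∀ x ∈ F ⁻¹' T₀, {y | F y ∈ T₀ → y ∈ connectedComponentIn (F ⁻¹' {F x}) x} ∈ 𝓝 x := by
      intro x hx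
      obtain ⟨h1, h2⟩ := hΦ x hx
      have h3 : Φ x x = 0 := by
        have : x ∈ {y | Φ x y = 0} := by
          rw [h2]
          exact mem_connectedComponentIn rfl
        exact this
      have h4 : (F ⁻¹' (T₀ \ {F x})ᶜ) ∈ 𝓝 x :=
        ((hT₀f.subset sdiff_subset).isClosed.isOpen_compl.preimage hF).mem_nhds
          fun h => h.2 rfl
      filter_upwards [h1.loc x h3, h4] with y h5 h6 h7
      have h8 : F y = F x := by
        by_contra hcon
        exact h6 ⟨h7, hcon⟩
      rw [h8, sub_self] at h5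
      rw [← h2]
      exact h5
    obtain ⟨t, htK⟩ := hcomp.elim_nhds_subcover' (fun x _ =>
      {y | F y ∈ T₀ → y ∈ connectedComponentIn (F ⁻¹' {F x}) x}) hO
    refine (t.finite_toSet.image fun x => connectedComponentIn (F ⁻¹' {F x.1}) x.1).subset ?_
    rintro S ⟨x, hx, rfl⟩
    obtain ⟨i, hi, hxi⟩ := mem_iUnion₂.1 (htK hx)
    refine ⟨i, hi, ?_⟩
    have h9 : x ∈ connectedComponentIn (F ⁻¹' {F i.1}) i.1 := hxi hx
    have h10 : F x = F i.1 := connectedComponentIn_subset (F ⁻¹' {F i.1}) i.1 h9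
    simp only
    rw [h10]
    exact connectedComponentIn_eq h9
  have hfin : Finite 𝒮 := h𝒮f
  have hψ : ∀ S : 𝒮, ∃ ψ : X → ℝ, Cut m F ψ ∧ {y | ψ y = 0} = S.1 ∧
      ∃ x, F x ∈ T₀ ∧ S.1 = connectedComponentIn (F ⁻¹' {F x}) x := by
    rintro ⟨S, x, hx, rfl⟩
    exact ⟨Φ x, (hΦ x hx).1, (hΦ x hx).2, x, hx, rfl⟩
  choose ψ hψ1 hψ2 hψ3 using hψ
  have hψz : ∀ (S : 𝒮) (y : X), ψ S y = 0 ↔ y ∈ S.1 := by
    intro S y
    rw [← hψ2 S]
    rfl
  have hS : ∀ (S : 𝒮) (y : X), y ∈ S.1 → S.1 = connectedComponentIn (F ⁻¹' {F y}) y := by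
    intro S y hy
    obtain ⟨x, hx, hxS⟩ := hψ3 S
    rw [hxS] at hy ⊢
    have h1 : F y = F x := connectedComponentIn_subset (F ⁻¹' {F x}) x hy
    rw [h1]
    exact connectedComponentIn_eq hy
  have hnd : ∀ (i j : 𝒮) (x : X), ψ i x = 0 → ψ j x = 0 → i = j := by
    intro i j x hi hj
    rw [hψz] at hi hj
    exact Subtype.ext ((hS i x hi).trans (hS j x hj).symm)
  have hlevel : ∀ t ∈ T₀, ∀ x, F x = t → ∃ i, ψ i x = 0 := by
    intro t ht x hx
    refine ⟨⟨connectedComponentIn (F ⁻¹' {F x}) x, x, by rw [hx]; exact ht, rfl⟩, ?_⟩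
    rw [hψz]
    exact mem_connectedComponentIn rfl
  -- the regions embed
  have hbase : ∀ ε : 𝒮 → ℝ, (∀ i, ε i = 1 ∨ ε i = -1) → Emb (m + 1) {x | ∀ i, 0 ≤ ε i * ψ i x} := by
    intro ε hε
    have hcl : IsClosed {x | ∀ i, 0 ≤ ε i * ψ i x} := by
      rw [ofPred_forall]
      exact isClosed_iInter fun i =>
        isClosed_le continuous_const (continuous_const.mul (hψ1 i).smooth.continuous)
    refine emb_of_components hcl.isCompact fun x hx => ?_
    obtain ⟨s, hs, hxs⟩ := mem_iUnion₂.1 (hP (mem_univ x))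
    refine Emb.mono (hslab s) ?_
    have hCR : ∀ y ∈ connectedComponentIn {x | ∀ i, 0 ≤ ε i * ψ i x} x, ∀ i, 0 ≤ ε i * ψ i y :=
      fun y hy => connectedComponentIn_subset _ _ hy
    have h1 := (one_side hF ψ hψ1 hnd (hlevel (lo s) (mem_iUnion₂.2 ⟨s, hs, Or.inl rfl⟩)) hε
      isPreconnected_connectedComponentIn hCR (mem_connectedComponentIn hx)).2 hxs.1
    have h2 := (one_side hF ψ hψ1 hnd (hlevel (hi s) (mem_iUnion₂.2 ⟨s, hs, Or.inr rfl⟩)) hε
      isPreconnected_connectedComponentIn hCR (mem_connectedComponentIn hx)).1 hxs.2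
    intro y hy
    have h3 := h1 y hy
    have h4 := h2 y hy
    rw [mem_preimage, mem_ball, Real.dist_eq, abs_lt]
    exact ⟨by linarith [hlo1 s], by linarith [hhi2 s]⟩
  by_cases hne : Nonempty 𝒮
  · exact uncut ψ hψ1 hne hbase
  · -- the whole manifold would embed
    exfalso
    have h1 := hbase (fun _ => 1) fun _ => Or.inl rfl
    obtain ⟨U, k, hU, hKU, hk, hkl⟩ := h1
    have hUu : U = univ := by
      refine eq_univ_of_univ_subset fun x _ => hKU fun i => absurd ⟨i⟩ hne
    subst hUu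
    have hkc : Continuous k := continuous_iff_continuousAt.2 fun x => (hkl x trivial).continuousAt
    have h2 : IsOpen (k '' univ) := isOpen_image_of_LD hU fun x hx => hkl x hx
    have h3 : IsClosed (k '' univ) := (isCompact_univ.image hkc).isClosed
    obtain ⟨x⟩ : Nonempty X := inferInstance
    have h4 := IsClopen.eq_univ ⟨h3, h2⟩ ⟨k x, x, trivial, rfl⟩
    have h5 : IsCompact (univ : Set (E (m + 1))) := h4 ▸ isCompact_univ.image hkc
    exact noncompact_univ (E (m + 1)) h5

end Pool.Agent.H827.LV
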