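import Pool.Graph.R_pool_sql_team_seeded_64922ed1.X175.SH.MB8

/-!
# Neighbourhoods of disjoint unions, and of compact sets whose components have neighbourhoods, which
embed in Euclidean space
-/

set_option autoImplicit false
set_option linter.unusedSectionVars false

open Set Filter Topology Metric Function
open scoped Manifold ContDiff

noncomputable section

namespace Pool.Agent.H827.LV

open Pool.Agent.Y522 Pool.Agent.X175.SH

variable {m : ℕ} {X : Type} [TopologicalSpace X] [T2Space X] [ChartedSpace (E (m + 1)) X]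

theorem emb_union {K₁ K₂ : Set X} (h1 : IsCompact K₁) (h2 : IsCompact K₂) (hd : Disjoint K₁ K₂)
    (e1 : Emb (m + 1) K₁) (e2 : Emb (m + 1) K₂) : Emb (m + 1) (K₁ ∪ K₂) := by
  classical
  obtain ⟨U₁, k₁, hU₁, hK₁, hi₁, hl₁⟩ := e1
  obtain ⟨U₂, k₂, hU₂, hK₂, hi₂, hl₂⟩ := e2
  obtain ⟨V₁, V₂, hV₁, hV₂, hKV₁, hKV₂, hVd⟩ := SeparatedNhds.of_isCompact_isCompact h1 h2 hd
  have hc₁ : ContinuousOn k₁ U₁ := fun x hx => (hl₁ x hx).continuousAt.continuousWithinAt
  have hc₂ : ContinuousOn k₂ U₂ := fun x hx => (hl₂ x hx).continuousAt.continuousWithinAt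
  obtain ⟨R₁, hR₁⟩ := (h1.image_of_continuousOn (hc₁.mono hK₁)).isBounded.subset_ball (0 : E (m + 1))
  obtain ⟨R₂, hR₂⟩ := (h2.image_of_continuousOn (hc₂.mono hK₂)).isBounded.subset_ball (0 : E (m + 1))
  obtain ⟨R, hR⟩ : ∃ R : ℝ, R = |R₁| + |R₂| := ⟨_, rfl⟩
  have hRR₁ : R₁ ≤ R := by
    have := le_abs_self R₁
    have := abs_nonneg R₂
    linarith
  have hRR₂ : R₂ ≤ R := by
    have := le_abs_self R₂
    have := abs_nonneg R₁
    linarith
  have hR0 : 0 ≤ R := by rw [hR]; positivity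
  obtain ⟨v, hv⟩ : ∃ v : E (m + 1), ‖v‖ = 2 * R := by
    refine ⟨(2 * R) • EuclideanSpace.single 0 1, ?_⟩
    rw [norm_smul, PiLp.norm_single, norm_one, mul_one,
      Real.norm_of_nonneg (by positivity)]
  set W₁ : Set X := (U₁ ∩ k₁ ⁻¹' ball 0 R) ∩ V₁ with hW₁
  set W₂ : Set X := (U₂ ∩ k₂ ⁻¹' ball 0 R) ∩ V₂ with hW₂
  have hW₁o : IsOpen W₁ := (hc₁.isOpen_inter_preimage hU₁ isOpen_ball).inter hV₁
  have hW₂o : IsOpen W₂ := (hc₂.isOpen_inter_preimage hU₂ isOpen_ball).inter hV₂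
  have hW₁n : ∀ x ∈ W₁, x ∉ W₂ := fun x hx hx' => Set.disjoint_left.1 hVd hx.2 hx'.2
  obtain ⟨k, hk⟩ : ∃ k : X → E (m + 1), k = fun x => if x ∈ W₁ then k₁ x else k₂ x + v :=
    ⟨_, rfl⟩
  have hka : ∀ x ∈ W₁, k x = k₁ x := fun x hx => by rw [hk]; exact if_pos hx
  have hkb : ∀ x ∈ W₂, k x = k₂ x + v := fun x hx => by
    rw [hk]; exact if_neg fun h => hW₁n x h hx
  refine ⟨W₁ ∪ W₂, k, hW₁o.union hW₂o, ?_, ?_, ?_⟩
  · rintro x (hx | hx)
    · refine Or.inl ⟨⟨hK₁ hx, ?_⟩, hKV₁ hx⟩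
      exact ball_subset_ball hRR₁ (hR₁ ⟨x, hx, rfl⟩)
    · refine Or.inr ⟨⟨hK₂ hx, ?_⟩, hKV₂ hx⟩
      exact ball_subset_ball hRR₂ (hR₂ ⟨x, hx, rfl⟩)
  · have key : ∀ x ∈ W₁, ∀ y ∈ W₂, k x ≠ k y := by
      intro x hx y hy hxy
      rw [hka x hx, hkb y hy] at hxy
      have a1 : ‖k₁ x‖ < R := mem_ball_zero_iff.1 hx.1.2
      have a2 : ‖k₂ y‖ < R := mem_ball_zero_iff.1 hy.1.2
      have a3 : v = k₁ x - k₂ y := by rw [hxy]; simp
      have a4 := norm_sub_le (k₁ x) (k₂ y)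
      rw [← a3, hv] at a4
      linarith
    rintro x (hx | hx) y (hy | hy) hxy
    · rw [hka x hx, hka y hy] at hxy
      exact hi₁ hx.1.1 hy.1.1 hxy
    · exact absurd hxy (key x hx y hy)
    · exact absurd hxy.symm (key y hy x hx)
    · rw [hkb x hx, hkb y hy] at hxy
      exact hi₂ hx.1.1 hy.1.1 (add_right_cancel hxy)
  · rintro x (hx | hx)
    · refine (hl₁ x hx.1.1).congr ?_
      filter_upwards [hW₁o.mem_nhds hx] with y hy
      exact hka y hy
    · have h3 : LD (m + 1) (fun y => k₂ y + v) x := by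
        refine LD.comp_fun (g := fun z : E (m + 1) => z + v) (f := k₂) ?_ (hl₂ x hx.1.1)
        have h4 : ∀ᶠ z in 𝓝 (k₂ x), ContDiffAt ℝ ∞ (fun z : E (m + 1) => z + v) z :=
          Eventually.of_forall fun z => contDiffAt_id.add contDiffAt_const
        refine LD_of_contDiffAt h4 (ContinuousLinearEquiv.refl ℝ _) ?_
        exact (hasFDerivAt_id _).add_const v
      refine h3.congr ?_
      filter_upwards [hW₂o.mem_nhds hx] with y hy
      exact hkb y hy

/-- finite unions of pieces which are open and closed in `K` -/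
theorem emb_biUnion {K : Set X} (hK : IsCompact K) {ι : Type} (s : Finset ι) (Z : ι → Set X)
    (hZc : ∀ i ∈ s, IsClosed (Z i)) (hZ : ∀ i ∈ s, IsClosed (K \ Z i)) (hZK : ∀ i ∈ s, Z i ⊆ K)
    (he : ∀ i ∈ s, Emb (m + 1) (Z i)) : Emb (m + 1) (⋃ i ∈ s, Z i) ∧ IsClosed (⋃ i ∈ s, Z i) ∧
      ⋃ i ∈ s, Z i ⊆ K := by
  classical
  induction s using Finset.induction_on with
  | empty =>
    refine ⟨⟨∅, fun _ => 0, isOpen_empty, by simp, injOn_empty _, fun x hx => hx.elim⟩, by simp,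
      by simp⟩
  | insert a s ha ih =>
    obtain ⟨h1, h2, h3⟩ := ih (fun i hi => hZc i (Finset.mem_insert_of_mem hi))
      (fun i hi => hZ i (Finset.mem_insert_of_mem hi))
      (fun i hi => hZK i (Finset.mem_insert_of_mem hi))
      (fun i hi => he i (Finset.mem_insert_of_mem hi))
    have haK := hZK a (Finset.mem_insert_self a s)
    have hac := hZc a (Finset.mem_insert_self a s)
    have haC := hZ a (Finset.mem_insert_self a s)
    have e1 : ⋃ i ∈ insert a s, Z i = Z a ∪ ((⋃ i ∈ s, Z i) ∩ (K \ Z a)) := by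
      rw [Finset.set_biUnion_insert]
      ext x
      constructor
      · rintro (hx | hx)
        · exact Or.inl hx
        · by_cases hxa : x ∈ Z a
          · exact Or.inl hxa
          · exact Or.inr ⟨hx, h3 hx, hxa⟩
      · rintro (hx | hx)
        · exact Or.inl hx
        · exact Or.inr hx.1
    rw [e1]
    have hcl : IsClosed ((⋃ i ∈ s, Z i) ∩ (K \ Z a)) := h2.inter haC
    refine ⟨emb_union (hK.of_isClosed_subset hac haK)
      (hK.of_isClosed_subset hcl fun x hx => hx.2.1) ?_ (he a (Finset.mem_insert_self a s))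
      (Emb.mono h1 inter_subset_left), hac.union hcl, union_subset haK fun x hx => hx.2.1⟩
    rw [Set.disjoint_left]
    exact fun x hx hx' => hx'.2.2 hx

/-- **A compact set embeds if its components embed.** -/
theorem emb_of_components {K : Set X} (hK : IsCompact K)
    (h : ∀ x ∈ K, Emb (m + 1) (connectedComponentIn K x)) : Emb (m + 1) K := by
  classical
  have hKc : CompactSpace K := isCompact_iff_compactSpace.1 hK
  -- each point has an embedded clopen neighbourhood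
  have hloc : ∀ x : K, ∃ Z : Set K, IsClopen Z ∧ x ∈ Z ∧ Emb (m + 1) (Subtype.val '' Z : Set X) := by
    intro x
    obtain ⟨U, k, hU, hCU, hk, hkl⟩ := h x x.2
    have hC : connectedComponent x ⊆ (Subtype.val ⁻¹' U : Set K) := by
      intro y hy
      apply hCU
      rw [connectedComponentIn_eq_image x.2]
      exact ⟨y, hy, rfl⟩
    rw [connectedComponent_eq_iInter_isClopen] at hC
    have hne : Nonempty {s : Set K // IsClopen s ∧ x ∈ s} := ⟨⟨univ, isClopen_univ, mem_univ x⟩⟩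
    obtain ⟨Z, hZ⟩ := exists_subset_nhds_of_isCompact' (ι := {s : Set K // IsClopen s ∧ x ∈ s})
      (V := fun s => s.1) (by
        intro a b
        exact ⟨⟨a.1 ∩ b.1, a.2.1.inter b.2.1, a.2.2, b.2.2⟩, inter_subset_left, inter_subset_right⟩)
      (fun s => s.2.1.isClosed.isCompact) (fun s => s.2.1.isClosed)
      (U := (Subtype.val ⁻¹' U : Set K)) (fun y hy => (hU.preimage continuous_subtype_val).mem_nhds
        (hC hy))
    refine ⟨Z.1, Z.2.1, Z.2.2, U, k, hU, ?_, hk, hkl⟩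
    rintro _ ⟨y, hy, rfl⟩
    exact hZ hy
  choose Z hZ hxZ hZe using hloc
  obtain ⟨s, hs⟩ := isCompact_univ.elim_finite_subcover Z (fun x => (hZ x).isOpen)
    (fun x _ => mem_iUnion.2 ⟨x, hxZ x⟩)
  have hcle : IsClosedEmbedding (Subtype.val : K → X) := hK.isClosed.isClosedEmbedding_subtypeVal
  obtain ⟨h1, -, -⟩ := emb_biUnion hK s (fun x => (Subtype.val '' Z x : Set X))
    (fun x _ => hcle.isClosedMap _ (hZ x).isClosed)
    (fun x _ => by
      have e1 : K \ (Subtype.val '' Z x : Set X) = Subtype.val '' (Z x)ᶜ := by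
        ext y
        constructor
        · rintro ⟨hy, hy'⟩
          exact ⟨⟨y, hy⟩, fun hc => hy' ⟨_, hc, rfl⟩, rfl⟩
        · rintro ⟨y, hy, rfl⟩
          refine ⟨y.2, ?_⟩
          rintro ⟨z, hz, hzy⟩
          exact hy (Subtype.val_injective hzy ▸ hz)
      rw [e1]
      exact hcle.isClosedMap _ (hZ x).isOpen.isClosed_compl)
    (fun x _ => by
      rintro _ ⟨y, -, rfl⟩
      exact y.2) (fun x _ => hZe x)
  refine Emb.mono h1 ?_
  intro x hx
  obtain ⟨i, hi⟩ := mem_iUnion.1 (hs (mem_univ (⟨x, hx⟩ : K)))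
  obtain ⟨hi1, hi2⟩ := mem_iUnion.1 hi
  exact mem_iUnion₂.2 ⟨i, hi1, ⟨x, hx⟩, hi2, rfl⟩

end Pool.Agent.H827.LV
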